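import Pool.Agent.Lib.Vpq.Defs

/-!
# Counting the pairs with bad ranks (MP_733c86_co)
-/

set_option autoImplicit false

open Finset Pool.Agent.Vps Pool.Agent.Vpd Pool.Agent.Vpt
open scoped ComplexConjugate

namespace Pool.Agent.Vpq

/-- `Finset.mem_filter` for an arbitrary decidability instance. -/
private theorem mem_filter_inst {α : Type*} {p : α → Prop} {inst : DecidablePred p} {s : Finset α}
    {a : α} : a ∈ @Finset.filter α p inst s ↔ a ∈ s ∧ p a := Finset.mem_filter

/-- PROOF. For a far point `z` each pair of `a ≤ 3` and of a bad rank `k ∈ BadR X z` excludes the at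
most two near `x` with `R X x z = k - a` (`near_le_two`). -/
theorem card_Q2 {X : Finset ℂ} {e : ℝ} (h : Sys X e) :
    ((Q2 X).card : ℝ) ≤ 8 * ∑ z ∈ X, ((BadR X z).card : ℝ) := by
  classical
  have hsub : Q2 X ⊆ (X.filter fun z => dist z Complex.I ≤ 1 / 200).biUnion fun z =>
      (BadR X z).biUnion fun k => (Finset.range 4).biUnion fun a =>
        (X.filter fun x => dist x 1 ≤ 1 / 20 ∧ R X x z = k - a).image fun x => (x, z) := by
    intro p hp
    unfold Q2 at hp
    obtain ⟨hnf, a, ha, hbad⟩ := mem_filter_inst.1 hp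
    unfold NF at hnf
    rw [Finset.mem_product, Finset.mem_filter, Finset.mem_filter] at hnf
    obtain ⟨⟨hx, hx1⟩, hz, hz1⟩ := hnf
    rw [Finset.mem_biUnion]
    refine ⟨p.2, Finset.mem_filter.2 ⟨hz, hz1⟩, ?_⟩
    rw [Finset.mem_biUnion]
    refine ⟨R X p.1 p.2 + a, hbad, ?_⟩
    rw [Finset.mem_biUnion]
    refine ⟨a, Finset.mem_range.2 (by omega), ?_⟩
    rw [Finset.mem_image]
    refine ⟨p.1, Finset.mem_filter.2 ⟨hx, le_trans hx1 (by norm_num), by omega⟩, rfl⟩
  have hnat : (Q2 X).card ≤ 8 * ∑ z ∈ X, (BadR X z).card := by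
    refine le_trans (Finset.card_le_card hsub) ?_
    refine le_trans Finset.card_biUnion_le ?_
    have h1 : ∀ z ∈ X.filter (fun z => dist z Complex.I ≤ 1 / 200),
        ((BadR X z).biUnion fun k => (Finset.range 4).biUnion fun a =>
          (X.filter fun x => dist x 1 ≤ 1 / 20 ∧ R X x z = k - a).image fun x => (x, z)).card
          ≤ 8 * (BadR X z).card := by
      intro z hz
      rw [Finset.mem_filter] at hz
      refine le_trans Finset.card_biUnion_le ?_
      refine le_trans (Finset.sum_le_card_nsmul _ _ 8 ?_) (by rw [smul_eq_mul, mul_comm])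
      intro k _
      refine le_trans Finset.card_biUnion_le ?_
      refine le_trans (Finset.sum_le_card_nsmul _ _ 2 ?_) (by rw [Finset.card_range]; norm_num)
      intro a _
      exact le_trans Finset.card_image_le
        (near_le_two h hz.1 (le_trans hz.2 (by norm_num)) (k - a))
    refine le_trans (Finset.sum_le_sum h1) ?_
    rw [← Finset.mul_sum]
    exact Nat.mul_le_mul_left 8 (Finset.sum_le_sum_of_subset (Finset.filter_subset _ _))
  have hcast : ((Q2 X).card : ℝ) ≤ ((8 * ∑ z ∈ X, (BadR X z).card : ℕ) : ℝ) := by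
    exact_mod_cast hnat
  refine le_trans hcast (le_of_eq ?_)
  push_cast
  ring

/-- PROOF. For every `x ∈ X` near `1`, every `b ≤ 6` and every bad rank `k ∈ BadR X x` there are at most
two far `z` with `R X x z = k - b` (`far_le_two`), and for each of them and each `a ≤ 3` at most two near
`x0` with `R X x0 z = R X x z - a` (`near_le_two`): `7 * 2 * 4 * 2 = 112`. -/
theorem card_Q3 {X : Finset ℂ} {e : ℝ} (h : Sys X e) :
    ((Q3 X).card : ℝ) ≤ 112 * ∑ x ∈ X, ((BadR X x).card : ℝ) := by
  classical
  have hsub : Q3 X ⊆ (X.filter fun x => dist x 1 ≤ 1 / 20).biUnion fun x =>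
      (BadR X x).biUnion fun k => (Finset.range 7).biUnion fun b =>
        (X.filter fun z => dist z Complex.I ≤ 1 / 50 ∧ R X x z = k - b).biUnion fun z =>
          (Finset.range 4).biUnion fun a =>
            (X.filter fun y => dist y 1 ≤ 1 / 20 ∧ R X y z = R X x z - a).image
              fun y => (y, z) := by
    intro p hp
    unfold Q3 at hp
    obtain ⟨hnf, x, hx, hx1, a, ha, hR, b, hb, hbad⟩ := mem_filter_inst.1 hp
    unfold NF at hnf
    rw [Finset.mem_product, Finset.mem_filter, Finset.mem_filter] at hnf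
    obtain ⟨⟨hx0, hx01⟩, hz, hz1⟩ := hnf
    rw [Finset.mem_biUnion]
    refine ⟨x, Finset.mem_filter.2 ⟨hx, hx1⟩, ?_⟩
    rw [Finset.mem_biUnion]
    refine ⟨R X x p.2 + b, hbad, ?_⟩
    rw [Finset.mem_biUnion]
    refine ⟨b, Finset.mem_range.2 (by omega), ?_⟩
    rw [Finset.mem_biUnion]
    refine ⟨p.2, Finset.mem_filter.2 ⟨hz, le_trans hz1 (by norm_num), by omega⟩, ?_⟩
    rw [Finset.mem_biUnion]
    refine ⟨a, Finset.mem_range.2 (by omega), ?_⟩
    rw [Finset.mem_image]
    refine ⟨p.1, Finset.mem_filter.2 ⟨hx0, le_trans hx01 (by norm_num), by omega⟩, rfl⟩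
  have hnat : (Q3 X).card ≤ 112 * ∑ x ∈ X, (BadR X x).card := by
    refine le_trans (Finset.card_le_card hsub) ?_
    refine le_trans Finset.card_biUnion_le ?_
    have h1 : ∀ x ∈ X.filter (fun x => dist x 1 ≤ 1 / 20),
        ((BadR X x).biUnion fun k => (Finset.range 7).biUnion fun b =>
          (X.filter fun z => dist z Complex.I ≤ 1 / 50 ∧ R X x z = k - b).biUnion fun z =>
            (Finset.range 4).biUnion fun a =>
              (X.filter fun y => dist y 1 ≤ 1 / 20 ∧ R X y z = R X x z - a).image
                fun y => (y, z)).card ≤ 112 * (BadR X x).card := by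
      intro x hx
      rw [Finset.mem_filter] at hx
      refine le_trans Finset.card_biUnion_le ?_
      refine le_trans (Finset.sum_le_card_nsmul _ _ 112 ?_) (by rw [smul_eq_mul, mul_comm])
      intro k _
      refine le_trans Finset.card_biUnion_le ?_
      refine le_trans (Finset.sum_le_card_nsmul _ _ 16 ?_) (by rw [Finset.card_range]; norm_num)
      intro b _
      refine le_trans Finset.card_biUnion_le ?_
      refine le_trans (Finset.sum_le_card_nsmul _ _ 8 ?_) ?_
      · intro z hz
        rw [Finset.mem_filter] at hz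
        refine le_trans Finset.card_biUnion_le ?_
        refine le_trans (Finset.sum_le_card_nsmul _ _ 2 ?_) (by rw [Finset.card_range]; norm_num)
        intro a _
        exact le_trans Finset.card_image_le (near_le_two h hz.1 hz.2.1 (R X x z - a))
      · have h2 := far_le_two h hx.1 hx.2 (k - b)
        rw [smul_eq_mul]
        exact le_trans (Nat.mul_le_mul_right 8 h2) (by norm_num)
    refine le_trans (Finset.sum_le_sum h1) ?_
    rw [← Finset.mul_sum]
    exact Nat.mul_le_mul_left 112 (Finset.sum_le_sum_of_subset (Finset.filter_subset _ _))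
  have hcast : ((Q3 X).card : ℝ) ≤ ((112 * ∑ x ∈ X, (BadR X x).card : ℕ) : ℝ) := by
    exact_mod_cast hnat
  refine le_trans hcast (le_of_eq ?_)
  push_cast
  ring

end Pool.Agent.Vpq
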