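import Mathlib

/-!
# Elements with few elements just above (MP_733c86_co). Pure real/finset combinatorics.
-/

set_option autoImplicit false

open Finset

namespace Pool.Agent.Vpq

/-- PROOF. Put the elements `d` to be counted into the cells `⌊(d - A) / s⌋₊ ≤ ⌊1 / s⌋₊`. A cell
contains at most three: of four elements `d1 < d2 < d3 < d4` of a cell the last three are in
`(d1, d1 + s]`. -/
theorem gap_count {D : Finset ℝ} {A s : ℝ} (hs : 0 < s) :
    ((D.filter fun d => A ≤ d ∧ d ≤ A + 1 ∧
      (D.filter fun d' => d < d' ∧ d' ≤ d + s).card < 3).card : ℝ) ≤ 3 * (1 / s + 1) := by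
  set B := D.filter fun d => A ≤ d ∧ d ≤ A + 1 ∧
      (D.filter fun d' => d < d' ∧ d' ≤ d + s).card < 3 with hB
  have key : B.card ≤ 3 * (Finset.range (⌊1 / s⌋₊ + 1)).card := by
    refine Finset.card_le_mul_card_image_of_maps_to (f := fun d : ℝ => ⌊(d - A) / s⌋₊) ?_ 3 ?_
    · intro d hd
      rw [hB, Finset.mem_filter] at hd
      rw [Finset.mem_range]
      refine Nat.lt_succ_of_le (Nat.floor_le_floor ?_)
      refine div_le_div_of_nonneg_right ?_ hs.le
      linarith [hd.2.2.1]
    · intro k _
      by_contra hlt
      rw [not_le] at hlt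
      set F := B.filter fun d : ℝ => ⌊(d - A) / s⌋₊ = k with hF
      have hne : F.Nonempty := Finset.card_pos.mp (by omega)
      have hmin := Finset.min'_mem F hne
      set m := F.min' hne with hm
      have hcard : 3 ≤ (F.erase m).card := by
        rw [Finset.card_erase_of_mem hmin]
        omega
      have hcell : ∀ d ∈ F, A + k * s ≤ d ∧ d < A + (k + 1) * s := by
        intro d hd
        rw [hF, Finset.mem_filter, hB, Finset.mem_filter] at hd
        have h0 : 0 ≤ (d - A) / s := div_nonneg (by linarith [hd.1.2.1]) hs.le
        have h1 := (Nat.floor_eq_iff h0).mp hd.2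
        constructor
        · have := (le_div_iff₀ hs).mp h1.1
          linarith
        · have := (div_lt_iff₀ hs).mp h1.2
          linarith
      have hsub : F.erase m ⊆ D.filter fun d' => m < d' ∧ d' ≤ m + s := by
        intro d hd
        rw [Finset.mem_erase] at hd
        have hdD : d ∈ D := by
          have := hd.2
          rw [hF, Finset.mem_filter, hB, Finset.mem_filter] at this
          exact this.1.1
        rw [Finset.mem_filter]
        refine ⟨hdD, lt_of_le_of_ne (Finset.min'_le F d hd.2) (Ne.symm hd.1), ?_⟩
        have h1 := (hcell m hmin).1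
        have h2 := (hcell d hd.2).2
        nlinarith
      have h3 := Finset.card_le_card hsub
      have h4 : (D.filter fun d' => m < d' ∧ d' ≤ m + s).card < 3 := by
        rw [hF, Finset.mem_filter, hB, Finset.mem_filter] at hmin
        exact hmin.1.2.2.2
      omega
  have h1 : (B.card : ℝ) ≤ 3 * ((⌊1 / s⌋₊ : ℝ) + 1) := by
    rw [Finset.card_range] at key
    exact_mod_cast key
  have h2 : (⌊1 / s⌋₊ : ℝ) ≤ 1 / s := Nat.floor_le (by positivity)
  linarith

end Pool.Agent.Vpq
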