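import Pool.Agent.Lib.Vpq.Defs
import Pool.Agent.Lib.Vpq.Gap

/-!
# Counting the pairs with a gap or with a crowded near point (MP_733c86_co)
-/

set_option autoImplicit false

open Finset Pool.Agent.Vps Pool.Agent.Vpd Pool.Agent.Vpt
open scoped ComplexConjugate

namespace Pool.Agent.Vpq

/-- PROOF. For every far `z` the distances `dist x z`, `x` near, are elements of `Dset X` in `[1, 2]`
(`GoodRankAux` `dist_bounds`); each value is taken at most twice (`valid` at `z`); `gap_count` with
`D = Dset X`, `A = 1`. -/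
theorem card_Q4 {X : Finset ℂ} {e s : ℝ} (h : Sys X e) (hs : 0 < s) :
    ((Q4 X s).card : ℝ) ≤ X.card * (6 * (1 / s + 1)) := by
  classical
  obtain ⟨G, hG⟩ : ∃ G : Finset ℝ, G = (Dset X).filter fun d => (1 : ℝ) ≤ d ∧ d ≤ 1 + 1 ∧
      ((Dset X).filter fun d' => d < d' ∧ d' ≤ d + s).card < 3 := ⟨_, rfl⟩
  have hGc : (G.card : ℝ) ≤ 3 * (1 / s + 1) := by
    rw [hG]
    exact gap_count (D := Dset X) (A := 1) hs
  have hmaps : ∀ p ∈ Q4 X s, (p.2, dist p.1 p.2) ∈ X ×ˢ G := by
    intro p hp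
    unfold Q4 at hp
    obtain ⟨h1, h2⟩ := Finset.mem_filter.1 hp
    unfold NF at h1
    obtain ⟨h3, h4⟩ := Finset.mem_product.1 h1
    obtain ⟨hx, hx1⟩ := Finset.mem_filter.1 h3
    obtain ⟨hz, hz1⟩ := Finset.mem_filter.1 h4
    have hx2 : dist p.1 1 ≤ 1 / 20 := hx1.trans (by norm_num)
    have hz2 : dist p.2 Complex.I ≤ 1 / 50 := hz1.trans (by norm_num)
    obtain ⟨b1, b2⟩ := GoodRankAux.dist_bounds hx2 hz2
    refine Finset.mem_product.2 ⟨hz, ?_⟩
    rw [hG]
    refine Finset.mem_filter.2 ⟨dist_mem_Dset hx hz (ne_of_near hx2 hz2), by linarith,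
      by linarith, ?_⟩
    exact h2
  have hfib : ∀ b ∈ X ×ˢ G, ((Q4 X s).filter fun p => (p.2, dist p.1 p.2) = b).card ≤ 2 := by
    intro b hb
    obtain ⟨hz, -⟩ := Finset.mem_product.1 hb
    refine le_trans ?_ (h.valid b.1 hz b.2)
    refine Finset.card_le_card_of_injOn Prod.fst ?_ ?_
    · intro p hp
      obtain ⟨hpQ, hpb⟩ := Finset.mem_filter.1 hp
      unfold Q4 at hpQ
      obtain ⟨h1, -⟩ := Finset.mem_filter.1 hpQ
      unfold NF at h1
      obtain ⟨h3, h4⟩ := Finset.mem_product.1 h1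
      obtain ⟨hx, hx1⟩ := Finset.mem_filter.1 h3
      obtain ⟨-, hz1⟩ := Finset.mem_filter.1 h4
      have e1 : p.2 = b.1 := congrArg Prod.fst hpb
      have e2 : dist p.1 p.2 = b.2 := congrArg Prod.snd hpb
      have hne := ne_of_near (x := p.1) (z := p.2) (hx1.trans (by norm_num))
        (hz1.trans (by norm_num))
      refine Finset.mem_coe.2 (Finset.mem_filter.2 ⟨hx, ?_, ?_⟩)
      · rw [← e1]; exact hne
      · rw [← e1, dist_comm]; exact e2
    · intro p hp q hq hpq
      have e1 := congrArg Prod.fst (Finset.mem_filter.1 hp).2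
      have e2 := congrArg Prod.fst (Finset.mem_filter.1 hq).2
      exact Prod.ext hpq (e1.trans e2.symm)
  have hc := Finset.card_le_mul_card_image_of_maps_to hmaps 2 hfib
  rw [Finset.card_product] at hc
  have hc' : ((Q4 X s).card : ℝ) ≤ 2 * ((X.card : ℝ) * (G.card : ℝ)) := by exact_mod_cast hc
  have hm : (X.card : ℝ) * (G.card : ℝ) ≤ X.card * (3 * (1 / s + 1)) :=
    mul_le_mul_of_nonneg_left hGc (Nat.cast_nonneg _)
  linarith

/-- PROOF. `∑ x ∈ X, card (ball X x (100 s)) = card (CP X (100 s)) + card X` (the ball contains `x`),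
so at most `(card (CP X (100 s)) + card X) / K` near points are exceptional. -/
theorem card_Q5 {X : Finset ℂ} {s K : ℝ} (hs : 0 ≤ s) (hK : 0 < K) :
    ((Q5 X s K).card : ℝ) ≤ X.card * (((CP X (100 * s)).card + X.card) / K) := by
  classical
  obtain ⟨N, hN⟩ : ∃ N : Finset ℂ, N = X.filter fun x => K < ((ball X x (100 * s)).card : ℝ) :=
    ⟨_, rfl⟩
  have hsub : Q5 X s K ⊆ N ×ˢ X := by
    intro p hp
    unfold Q5 at hp
    obtain ⟨h1, h2⟩ := Finset.mem_filter.1 hp
    unfold NF at h1
    obtain ⟨h3, h4⟩ := Finset.mem_product.1 h1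
    refine Finset.mem_product.2 ⟨?_, (Finset.mem_filter.1 h4).1⟩
    rw [hN]
    exact Finset.mem_filter.2 ⟨(Finset.mem_filter.1 h3).1, h2⟩
  have hball : ∀ x ∈ X, (ball X x (100 * s)).card ≤
      ((CP X (100 * s)).filter fun p => p.1 = x).card + 1 := by
    intro x hx
    have h1 : ball X x (100 * s) ⊆
        insert x ((((CP X (100 * s)).filter fun p => p.1 = x)).image Prod.snd) := by
      intro y hy
      rw [mem_ball] at hy
      by_cases hyx : y = x
      · rw [hyx]; exact Finset.mem_insert_self _ _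
      · refine Finset.mem_insert_of_mem (Finset.mem_image.2 ⟨(x, y), ?_, rfl⟩)
        refine Finset.mem_filter.2 ⟨?_, rfl⟩
        unfold CP
        exact Finset.mem_filter.2 ⟨Finset.mem_product.2 ⟨hx, hy.1⟩, fun h => hyx h.symm, hy.2⟩
    refine (Finset.card_le_card h1).trans ((Finset.card_insert_le _ _).trans ?_)
    have := Finset.card_image_le (s := (CP X (100 * s)).filter fun p => p.1 = x) (f := Prod.snd)
    omega
  have hsum : ∑ x ∈ X, (ball X x (100 * s)).card ≤ (CP X (100 * s)).card + X.card := by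
    have h1 : (CP X (100 * s)).card =
        ∑ x ∈ X, ((CP X (100 * s)).filter fun p => p.1 = x).card := by
      refine Finset.card_eq_sum_card_fiberwise ?_
      intro p hp
      have hp' := Finset.mem_coe.1 hp
      unfold CP at hp'
      exact Finset.mem_coe.2 (Finset.mem_product.1 (Finset.mem_filter.1 hp').1).1
    have h2 := Finset.sum_le_sum hball
    rw [Finset.sum_add_distrib, ← h1, Finset.sum_const, smul_eq_mul, mul_one] at h2
    exact h2
  have hNK : (N.card : ℝ) * K ≤ (CP X (100 * s)).card + X.card := by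
    have h1 : (N.card : ℝ) * K ≤ ∑ x ∈ N, ((ball X x (100 * s)).card : ℝ) := by
      rw [← nsmul_eq_mul]
      refine Finset.card_nsmul_le_sum _ _ _ ?_
      intro x hx
      rw [hN] at hx
      exact (Finset.mem_filter.1 hx).2.le
    have h2 : ∑ x ∈ N, ((ball X x (100 * s)).card : ℝ) ≤
        ∑ x ∈ X, ((ball X x (100 * s)).card : ℝ) := by
      refine Finset.sum_le_sum_of_subset_of_nonneg ?_ (fun _ _ _ => Nat.cast_nonneg _)
      rw [hN]
      exact Finset.filter_subset _ _
    have h3 : (∑ x ∈ X, ((ball X x (100 * s)).card : ℝ)) ≤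
        (CP X (100 * s)).card + X.card := by exact_mod_cast hsum
    linarith
  have hNle : (N.card : ℝ) ≤ ((CP X (100 * s)).card + X.card) / K := by
    rw [le_div_iff₀ hK]; exact hNK
  have hc := Finset.card_le_card hsub
  rw [Finset.card_product] at hc
  have hc' : ((Q5 X s K).card : ℝ) ≤ (N.card : ℝ) * X.card := by exact_mod_cast hc
  have hm := mul_le_mul_of_nonneg_left hNle (Nat.cast_nonneg X.card (α := ℝ))
  linarith

end Pool.Agent.Vpq
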