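import Pool.Agent.Lib.Vpt.Slp
import Pool.Agent.Lib.Vpd.Geo

/-!
# Inverted far pairs and the position of the near points (MP_733c86_co)
-/

set_option autoImplicit false

open Finset Pool.Agent.Vps Pool.Agent.Vpd Pool.Agent.Vpt
open scoped ComplexConjugate

namespace Pool.Agent.Vpq

namespace NearBAux

/-- `Vpd.geo_zero` for two points near `1`. -/
theorem geo_zero' {x x' z y : ℂ} (hnx : dist x 1 ≤ 1 / 100)
    (hnx' : dist x' 1 ≤ 1 / 100) (hinv : Inv x x' z y) :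
    ∃ a b : ℝ, |a - 1| ≤ 1 / 100 ∧ |b| ≤ 1 / 100 ∧
      2 * (a * (y.re - z.re) + b * (y.im - z.im)) =
        (y.re ^ 2 + y.im ^ 2) - (z.re ^ 2 + z.im ^ 2) := by
  obtain ⟨hx1, hx2⟩ := geo_near_one hnx
  obtain ⟨hy1, hy2⟩ := geo_near_one hnx'
  rw [abs_le] at hx1 hx2 hy1 hy2
  -- the affine function
  set f : ℝ := 2 * (x.re * (y.re - z.re) + x.im * (y.im - z.im)) -
    ((y.re ^ 2 + y.im ^ 2) - (z.re ^ 2 + z.im ^ 2)) with hf
  set f' : ℝ := 2 * (x'.re * (y.re - z.re) + x'.im * (y.im - z.im)) -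
    ((y.re ^ 2 + y.im ^ 2) - (z.re ^ 2 + z.im ^ 2)) with hf'
  have ef : f = dist x z ^ 2 - dist x y ^ 2 := by
    rw [geo_dist_sq, geo_dist_sq, hf]; ring
  have ef' : f' = dist x' z ^ 2 - dist x' y ^ 2 := by
    rw [geo_dist_sq, geo_dist_sq, hf']; ring
  have neg : ∀ u : ℂ, dist u z ^ 2 - dist u y ^ 2 < 0 → dist u z < dist u y := by
    intro u hu
    exact lt_of_pow_lt_pow_left₀ 2 dist_nonneg (by linarith)
  have pos : ∀ u : ℂ, 0 < dist u z ^ 2 - dist u y ^ 2 → dist u y < dist u z := by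
    intro u hu
    exact lt_of_pow_lt_pow_left₀ 2 dist_nonneg (by linarith)
  have h1 : ¬ (f < 0 ∧ f' < 0) := by
    rintro ⟨h1, h2⟩
    rw [ef] at h1
    rw [ef'] at h2
    exact hinv.1 ⟨neg x h1, neg x' h2⟩
  have h2 : ¬ (0 < f ∧ 0 < f') := by
    rintro ⟨h1, h2⟩
    rw [ef] at h1
    rw [ef'] at h2
    exact hinv.2 ⟨pos x h1, pos x' h2⟩
  -- a parameter
  obtain ⟨t, ht0, ht1, ht⟩ : ∃ t : ℝ, 0 ≤ t ∧ t ≤ 1 ∧ (1 - t) * f + t * f' = 0 := by
    rcases eq_or_ne f f' with hff | hff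
    · have h0 : f = 0 := by
        rcases lt_trichotomy f 0 with h3 | h3 | h3
        · exact absurd ⟨h3, hff ▸ h3⟩ h1
        · exact h3
        · exact absurd ⟨h3, hff ▸ h3⟩ h2
      exact ⟨0, le_refl _, zero_le_one, by rw [h0]; ring⟩
    · have hd : f - f' ≠ 0 := sub_ne_zero.2 hff
      refine ⟨f / (f - f'), ?_, ?_, ?_⟩
      · rcases lt_or_gt_of_ne hd with hlt | hgt
        · have : f ≤ 0 := by
            by_contra h3
            push Not at h3
            exact h2 ⟨h3, by linarith⟩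
          exact div_nonneg_of_nonpos this hlt.le
        · have : 0 ≤ f := by
            by_contra h3
            push Not at h3
            exact h1 ⟨h3, by linarith⟩
          exact div_nonneg this hgt.le
      · rcases lt_or_gt_of_ne hd with hlt | hgt
        · have : 0 ≤ f' := by
            by_contra h3
            push Not at h3
            exact h1 ⟨by linarith, h3⟩
          rw [div_le_one_of_neg hlt]
          linarith
        · have : f' ≤ 0 := by
            by_contra h3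
            push Not at h3
            exact h2 ⟨by linarith, h3⟩
          rw [div_le_one hgt]
          linarith
      · field_simp
        ring
  refine ⟨(1 - t) * x.re + t * x'.re, (1 - t) * x.im + t * x'.im, ?_, ?_, ?_⟩
  · rw [abs_le]
    have hs : 0 ≤ 1 - t := by linarith
    constructor
    · have a1 := mul_le_mul_of_nonneg_left hx1.1 hs
      have a2 := mul_le_mul_of_nonneg_left hy1.1 ht0
      linarith
    · have a1 := mul_le_mul_of_nonneg_left hx1.2 hs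
      have a2 := mul_le_mul_of_nonneg_left hy1.2 ht0
      linarith
  · rw [abs_le]
    have hs : 0 ≤ 1 - t := by linarith
    constructor
    · have a1 := mul_le_mul_of_nonneg_left hx2.1 hs
      have a2 := mul_le_mul_of_nonneg_left hy2.1 ht0
      linarith
    · have a1 := mul_le_mul_of_nonneg_left hx2.2 hs
      have a2 := mul_le_mul_of_nonneg_left hy2.2 ht0
      linarith
  · rw [hf, hf'] at ht
    linear_combination ht

/-- `Vpd.close_of_inv` for two points near `1`. -/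
theorem close_of_inv' {T : ℝ} {x x' z y : ℂ} (hnx : dist x 1 ≤ 1 / 100)
    (hnx' : dist x' 1 ≤ 1 / 100) (hz : dist z Complex.I ≤ 1 / 50)
    (hy : dist y Complex.I ≤ 1 / 50) (hzT : |‖z‖ ^ 2 - 1| ≤ T) (hyT : |‖y‖ ^ 2 - 1| ≤ T)
    (hinv : Inv x x' z y) : dist z y ≤ 3 * T := by
  obtain ⟨a, b, ha, hb, hab⟩ := geo_zero' hnx hnx' hinv
  obtain ⟨hz1, hz2⟩ := geo_near_I hz
  obtain ⟨hy1, hy2⟩ := geo_near_I hy
  rw [geo_norm_sq] at hzT hyT
  set n1 : ℝ := y.re - z.re with hn1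
  set n2 : ℝ := y.im - z.im with hn2
  set w : ℝ := (y.re ^ 2 + y.im ^ 2) - (z.re ^ 2 + z.im ^ 2) with hw
  have hwT : |w| ≤ 2 * T := by
    rw [abs_le] at hzT hyT ⊢
    constructor <;> linarith [hzT.1, hzT.2, hyT.1, hyT.2]
  have e2 : (y.re + z.re) * n1 + (y.im + z.im) * n2 = w := by
    rw [hn1, hn2, hw]; ring
  -- `|n1| ≤ T + ...`
  have k1 : |n1| ≤ T + 1 / 100 * |n1| + 1 / 100 * |n2| := by
    have : n1 = w / 2 - (a - 1) * n1 - b * n2 := by linarith
    calc |n1| = |w / 2 - (a - 1) * n1 - b * n2| := by rw [← this]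
      _ ≤ |w / 2 - (a - 1) * n1| + |b * n2| := abs_sub _ _
      _ ≤ |w / 2| + |(a - 1) * n1| + |b * n2| := by gcongr; exact abs_sub _ _
      _ = |w| / 2 + |a - 1| * |n1| + |b| * |n2| := by
          rw [abs_mul, abs_mul, abs_div, abs_two]
      _ ≤ 2 * T / 2 + 1 / 100 * |n1| + 1 / 100 * |n2| := by gcongr
      _ = T + 1 / 100 * |n1| + 1 / 100 * |n2| := by ring
  have k2 : |n2| ≤ T + 1 / 50 * |n1| + 1 / 50 * |n2| := by
    have : n2 = w / 2 - (y.re + z.re) / 2 * n1 - ((y.im - 1) + (z.im - 1)) / 2 * n2 := by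
      linarith
    have c1 : |(y.re + z.re) / 2| ≤ 1 / 50 := by
      rw [abs_le] at hz1 hy1 ⊢
      constructor <;> linarith [hz1.1, hz1.2, hy1.1, hy1.2]
    have c2 : |((y.im - 1) + (z.im - 1)) / 2| ≤ 1 / 50 := by
      rw [abs_le] at hz2 hy2 ⊢
      constructor <;> linarith [hz2.1, hz2.2, hy2.1, hy2.2]
    calc |n2| = |w / 2 - (y.re + z.re) / 2 * n1 - ((y.im - 1) + (z.im - 1)) / 2 * n2| := by
          rw [← this]
      _ ≤ |w / 2 - (y.re + z.re) / 2 * n1| + |((y.im - 1) + (z.im - 1)) / 2 * n2| := abs_sub _ _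
      _ ≤ |w / 2| + |(y.re + z.re) / 2 * n1| + |((y.im - 1) + (z.im - 1)) / 2 * n2| := by
          gcongr; exact abs_sub _ _
      _ = |w| / 2 + |(y.re + z.re) / 2| * |n1| + |((y.im - 1) + (z.im - 1)) / 2| * |n2| := by
          rw [abs_mul, abs_mul, abs_div, abs_two]
      _ ≤ 2 * T / 2 + 1 / 50 * |n1| + 1 / 50 * |n2| := by gcongr
      _ = T + 1 / 50 * |n1| + 1 / 50 * |n2| := by ring
  have hT : 0 ≤ T := (abs_nonneg _).trans hzT
  have hsum : |n1| + |n2| ≤ 3 * T := by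
    have := abs_nonneg n1
    have := abs_nonneg n2
    linarith
  have hd : dist z y ≤ |n1| + |n2| := by
    rw [dist_comm, Complex.dist_eq]
    have := Complex.norm_le_abs_re_add_abs_im (y - z)
    simpa only [Complex.sub_re, Complex.sub_im] using this
  exact hd.trans hsum

/-- `Vpt.inv_dist_le` for two points near `1`. -/
theorem inv_dist_le' {x x' z y : ℂ} (hnx : dist x 1 ≤ 1 / 100)
    (hnx' : dist x' 1 ≤ 1 / 100) (hz : dist z Complex.I ≤ 1 / 50)
    (hy : dist y Complex.I ≤ 1 / 50) (hinv : Inv x x' z y) :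
    97 / 100 * dist z y ≤ |‖y‖ ^ 2 - ‖z‖ ^ 2| := by
  obtain ⟨a, b, ha, hb, hab⟩ := geo_zero' hnx hnx' hinv
  obtain ⟨hz1, hz2⟩ := geo_near_I hz
  obtain ⟨hy1, hy2⟩ := geo_near_I hy
  rw [geo_norm_sq, geo_norm_sq]
  set n1 : ℝ := y.re - z.re with hn1
  set n2 : ℝ := y.im - z.im with hn2
  set w : ℝ := (y.re ^ 2 + y.im ^ 2) - (z.re ^ 2 + z.im ^ 2) with hw
  have e2 : (y.re + z.re) * n1 + (y.im + z.im) * n2 = w := by
    rw [hn1, hn2, hw]; ring
  have k1 : |n1| ≤ |w| / 2 + 1 / 100 * |n1| + 1 / 100 * |n2| := by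
    have : n1 = w / 2 - (a - 1) * n1 - b * n2 := by linarith
    calc |n1| = |w / 2 - (a - 1) * n1 - b * n2| := by rw [← this]
      _ ≤ |w / 2 - (a - 1) * n1| + |b * n2| := abs_sub _ _
      _ ≤ |w / 2| + |(a - 1) * n1| + |b * n2| := by gcongr; exact abs_sub _ _
      _ = |w| / 2 + |a - 1| * |n1| + |b| * |n2| := by
          rw [abs_mul, abs_mul, abs_div, abs_two]
      _ ≤ |w| / 2 + 1 / 100 * |n1| + 1 / 100 * |n2| := by gcongr
  have k2 : |n2| ≤ |w| / 2 + 1 / 50 * |n1| + 1 / 50 * |n2| := by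
    have : n2 = w / 2 - (y.re + z.re) / 2 * n1 - ((y.im - 1) + (z.im - 1)) / 2 * n2 := by
      linarith
    have c1 : |(y.re + z.re) / 2| ≤ 1 / 50 := by
      rw [abs_le] at hz1 hy1 ⊢
      constructor <;> linarith [hz1.1, hz1.2, hy1.1, hy1.2]
    have c2 : |((y.im - 1) + (z.im - 1)) / 2| ≤ 1 / 50 := by
      rw [abs_le] at hz2 hy2 ⊢
      constructor <;> linarith [hz2.1, hz2.2, hy2.1, hy2.2]
    calc |n2| = |w / 2 - (y.re + z.re) / 2 * n1 - ((y.im - 1) + (z.im - 1)) / 2 * n2| := by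
          rw [← this]
      _ ≤ |w / 2 - (y.re + z.re) / 2 * n1| + |((y.im - 1) + (z.im - 1)) / 2 * n2| := abs_sub _ _
      _ ≤ |w / 2| + |(y.re + z.re) / 2 * n1| + |((y.im - 1) + (z.im - 1)) / 2 * n2| := by
          gcongr; exact abs_sub _ _
      _ = |w| / 2 + |(y.re + z.re) / 2| * |n1| + |((y.im - 1) + (z.im - 1)) / 2| * |n2| := by
          rw [abs_mul, abs_mul, abs_div, abs_two]
      _ ≤ |w| / 2 + 1 / 50 * |n1| + 1 / 50 * |n2| := by gcongr
  have hd : dist z y ≤ |n1| + |n2| := by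
    rw [dist_comm, Complex.dist_eq]
    have := Complex.norm_le_abs_re_add_abs_im (y - z)
    simpa only [Complex.sub_re, Complex.sub_im] using this
  linarith

end NearBAux

open NearBAux

/-- PROOF. `Vpt.inv_close` (InvClose.lean) and `Vpd.geo_zero`, `Vpd.close_of_inv` (Geo.lean) with `Step`
replaced by its first two fields (`h.near`, `h.near'`), the only ones which their proofs use. -/
theorem inv_close' {X : Finset ℂ} {T s : ℝ} (hT : T ≤ 1 / 10 ^ 6) (hs : Slp X s) {x x' z y : ℂ}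
    (hx : dist x 1 ≤ 1 / 100) (hx' : dist x' 1 ≤ 1 / 100) (hz : dist z Complex.I ≤ 1 / 50)
    (hy : dist y Complex.I ≤ 1 / 50) (hzX : z ∈ X) (hyX : y ∈ X) (hzT : |‖z‖ ^ 2 - 1| ≤ T)
    (hyT : |‖y‖ ^ 2 - 1| ≤ T) (hinv : Inv x x' z y) : dist z y ≤ 50 * s := by
  have h1 : dist z y ≤ 3 * T := close_of_inv' hx hx' hz hy hzT hyT hinv
  have h2 := hs z hzX y hyX (by linarith)
  have h3 := inv_dist_le' hx hx' hz hy hinv
  have hz0 := norm_nonneg z
  have hy0 := norm_nonneg y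
  have hz1 : ‖z‖ ≤ 101 / 100 := by
    by_contra hcon
    push Not at hcon
    have := (abs_le.mp hzT).2
    nlinarith
  have hy1 : ‖y‖ ≤ 101 / 100 := by
    by_contra hcon
    push Not at hcon
    have := (abs_le.mp hyT).2
    nlinarith
  have h4 : |‖y‖ ^ 2 - ‖z‖ ^ 2| ≤ 202 / 100 * |‖z‖ - ‖y‖| := by
    have e : ‖y‖ ^ 2 - ‖z‖ ^ 2 = -((‖y‖ + ‖z‖) * (‖z‖ - ‖y‖)) := by ring
    rw [e, abs_neg, abs_mul, abs_of_nonneg (by linarith : (0 : ℝ) ≤ ‖y‖ + ‖z‖)]
    exact mul_le_mul_of_nonneg_right (by linarith) (abs_nonneg _)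
  have h5 := dist_nonneg (x := z) (y := y)
  linarith

end Pool.Agent.Vpq
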