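import Pool.Agent.Lib.Vpt.Slp
import Pool.Agent.Lib.Vpd.Geo

/-!
# The near points which see a far pair change its order (MP_733c86_co)
-/

set_option autoImplicit false

open Finset Pool.Agent.Vps Pool.Agent.Vpd Pool.Agent.Vpt
open scoped ComplexConjugate

namespace Pool.Agent.Vpq

/-- The affine function `φ(q) = |q - z|² - |q - y|²` vanishes at a point of the segment. -/
theorem inv_seg {x x' z y : ℂ} (hinv : Inv x x' z y) :
    ∃ q : ℂ, dist q x ≤ dist x' x ∧ (∀ r : ℝ, dist x 1 ≤ r → dist x' 1 ≤ r → dist q 1 ≤ r) ∧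
      2 * (q.re * (y.re - z.re) + q.im * (y.im - z.im)) =
        (y.re ^ 2 + y.im ^ 2) - (z.re ^ 2 + z.im ^ 2) := by
  set f : ℝ := 2 * (x.re * (y.re - z.re) + x.im * (y.im - z.im)) -
    ((y.re ^ 2 + y.im ^ 2) - (z.re ^ 2 + z.im ^ 2)) with hf
  set f' : ℝ := 2 * (x'.re * (y.re - z.re) + x'.im * (y.im - z.im)) -
    ((y.re ^ 2 + y.im ^ 2) - (z.re ^ 2 + z.im ^ 2)) with hf'
  have ef : f = dist x z ^ 2 - dist x y ^ 2 := by
    rw [geo_dist_sq, geo_dist_sq, hf]; ring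
  have ef' : f' = dist x' z ^ 2 - dist x' y ^ 2 := by
    rw [geo_dist_sq, geo_dist_sq, hf']; ring
  have neg : ∀ u : ℂ, dist u z ^ 2 - dist u y ^ 2 < 0 → dist u z < dist u y := by
    intro u hu
    exact lt_of_pow_lt_pow_left₀ 2 dist_nonneg (by linarith)
  have pos : ∀ u : ℂ, 0 < dist u z ^ 2 - dist u y ^ 2 → dist u y < dist u z := by
    intro u hu
    exact lt_of_pow_lt_pow_left₀ 2 dist_nonneg (by linarith)
  have h1 : ¬ (f < 0 ∧ f' < 0) := by
    rintro ⟨h1, h2⟩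
    rw [ef] at h1
    rw [ef'] at h2
    exact hinv.1 ⟨neg x h1, neg x' h2⟩
  have h2 : ¬ (0 < f ∧ 0 < f') := by
    rintro ⟨h1, h2⟩
    rw [ef] at h1
    rw [ef'] at h2
    exact hinv.2 ⟨pos x h1, pos x' h2⟩
  obtain ⟨t, ht0, ht1, ht⟩ : ∃ t : ℝ, 0 ≤ t ∧ t ≤ 1 ∧ (1 - t) * f + t * f' = 0 := by
    rcases eq_or_ne f f' with hff | hff
    · have h0 : f = 0 := by
        rcases lt_trichotomy f 0 with h3 | h3 | h3
        · exact absurd ⟨h3, hff ▸ h3⟩ h1
        · exact h3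
        · exact absurd ⟨h3, hff ▸ h3⟩ h2
      exact ⟨0, le_refl _, zero_le_one, by rw [h0]; ring⟩
    · have hd : f - f' ≠ 0 := sub_ne_zero.2 hff
      refine ⟨f / (f - f'), ?_, ?_, ?_⟩
      · rcases lt_or_gt_of_ne hd with hlt | hgt
        · have : f ≤ 0 := by
            by_contra h3
            push Not at h3
            exact h2 ⟨h3, by linarith⟩
          exact div_nonneg_of_nonpos this hlt.le
        · have : 0 ≤ f := by
            by_contra h3
            push Not at h3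
            exact h1 ⟨h3, by linarith⟩
          exact div_nonneg this hgt.le
      · rcases lt_or_gt_of_ne hd with hlt | hgt
        · have : 0 ≤ f' := by
            by_contra h3
            push Not at h3
            exact h1 ⟨by linarith, h3⟩
          rw [div_le_one_of_neg hlt]
          linarith
        · have : f' ≤ 0 := by
            by_contra h3
            push Not at h3
            exact h2 ⟨by linarith, h3⟩
          rw [div_le_one hgt]
          linarith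
      · field_simp
        ring
  have hs : 0 ≤ 1 - t := by linarith
  refine ⟨((1 - t : ℝ) : ℂ) * x + (t : ℂ) * x', ?_, ?_, ?_⟩
  · have e : ((1 - t : ℝ) : ℂ) * x + (t : ℂ) * x' - x = (t : ℂ) * (x' - x) := by
      push_cast
      ring
    rw [dist_eq_norm, e, norm_mul, Complex.norm_real, Real.norm_eq_abs, abs_of_nonneg ht0,
      dist_eq_norm]
    exact mul_le_of_le_one_left (norm_nonneg _) ht1
  · intro r hr hr'
    have e : ((1 - t : ℝ) : ℂ) * x + (t : ℂ) * x' - 1 =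
        ((1 - t : ℝ) : ℂ) * (x - 1) + (t : ℂ) * (x' - 1) := by
      push_cast
      ring
    rw [dist_eq_norm] at hr hr' ⊢
    rw [e]
    refine (norm_add_le _ _).trans ?_
    rw [norm_mul, norm_mul, Complex.norm_real, Complex.norm_real, Real.norm_eq_abs,
      Real.norm_eq_abs, abs_of_nonneg ht0, abs_of_nonneg hs]
    have a1 := mul_le_mul_of_nonneg_left hr hs
    have a2 := mul_le_mul_of_nonneg_left hr' ht0
    linarith
  · have e1 : (((1 - t : ℝ) : ℂ) * x + (t : ℂ) * x').re = (1 - t) * x.re + t * x'.re := by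
      rw [Complex.add_re, Complex.re_ofReal_mul, Complex.re_ofReal_mul]
    have e2 : (((1 - t : ℝ) : ℂ) * x + (t : ℂ) * x').im = (1 - t) * x.im + t * x'.im := by
      rw [Complex.add_im, Complex.im_ofReal_mul, Complex.im_ofReal_mul]
    rw [e1, e2]
    rw [hf, hf'] at ht
    linear_combination ht

/-- The near points which see the pair `z, y` change its order within `10 s` are close. PROOF. As in
`geo_zero` there is `q` on the segment `[x0, x1]` with `|q - z|² = |q - y|²`, `dist q x0 ≤ 10 s`, and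
`q'` on `[x0', x1']`, `dist q' x0' ≤ 10 s`. With `n = y - z ≠ 0`: `⟨q - q', n⟩ = 0` and
`⟨(y + z) / 2 - q, n⟩ = 0`, `(y + z) / 2 - q` is within `3 / 100` (each coordinate) of `(-1, 1)`, so
`|n.re| ≤ 1.07 |n.im|`, `n.im ≠ 0` (and `|n.im| ≤ 1.07 |n.re|`). Hence for `Δ = q - q'`
`|Δ.im| ≤ 1.07 |Δ.re|`, `|Δ| ≤ 2.07 |Δ.re|`. `|‖q‖ ^ 2 - ‖q'‖ ^ 2| = |⟨Δ, q + q'⟩| ≥ 1.95 |Δ.re|`
(`q + q'` within `1 / 50` of `(2, 0)`), and it is at most `2.02 (|‖x0‖ - ‖x0'‖| + 20 s) ≤
2.02 (dist x0 x0' / 9 + 21 s)` (`hs`, `dist x0 x0' ≤ 1 / 100`), `dist x0 x0' ≤ 2.07 |Δ.re| + 20 s`: so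
`|Δ.re| ≤ 32 s`, `dist x0 x0' ≤ 87 s`. -/
theorem inv_diam {X : Finset ℂ} {s : ℝ} (hs0 : 0 ≤ s) (hs : Slp X s) {x0 x1 x0' x1' z y : ℂ}
    (hx0 : x0 ∈ X) (hx0' : x0' ∈ X) (h0 : dist x0 1 ≤ 1 / 200) (h0' : dist x0' 1 ≤ 1 / 200)
    (h1 : dist x1 1 ≤ 1 / 100) (h1' : dist x1' 1 ≤ 1 / 100) (h01 : dist x1 x0 ≤ 10 * s)
    (h01' : dist x1' x0' ≤ 10 * s) (hz : dist z Complex.I ≤ 1 / 50)
    (hy : dist y Complex.I ≤ 1 / 50) (hzy : z ≠ y) (hinv : Inv x0 x1 z y)
    (hinv' : Inv x0' x1' z y) : dist x0 x0' ≤ 100 * s := by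
  obtain ⟨q, hq, hq1, hqe⟩ := inv_seg hinv
  obtain ⟨q', hq', hq1', hqe'⟩ := inv_seg hinv'
  have hqs : dist q x0 ≤ 10 * s := hq.trans h01
  have hqs' : dist q' x0' ≤ 10 * s := hq'.trans h01'
  have hqn : dist q 1 ≤ 1 / 100 := hq1 _ (h0.trans (by norm_num)) h1
  have hqn' : dist q' 1 ≤ 1 / 100 := hq1' _ (h0'.trans (by norm_num)) h1'
  obtain ⟨ha, hb⟩ := geo_near_one hqn
  obtain ⟨ha', hb'⟩ := geo_near_one hqn'
  obtain ⟨hz1, hz2⟩ := geo_near_I hz
  obtain ⟨hy1, hy2⟩ := geo_near_I hy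
  set n1 : ℝ := y.re - z.re with hn1
  set n2 : ℝ := y.im - z.im with hn2
  set σ : ℝ := q.re - (y.re + z.re) / 2 with hσ
  set r : ℝ := (y.im + z.im) / 2 - q.im with hr
  have horth : σ * n1 = r * n2 := by
    have e2 : (y.re + z.re) * n1 + (y.im + z.im) * n2 =
        (y.re ^ 2 + y.im ^ 2) - (z.re ^ 2 + z.im ^ 2) := by
      rw [hn1, hn2]; ring
    rw [hσ, hr]
    linarith
  have hΔ : (q.re - q'.re) * n1 + (q.im - q'.im) * n2 = 0 := by linarith
  have hno : ‖q‖ ≤ 101 / 100 := by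
    have h2 := norm_le_norm_add_norm_sub (1 : ℂ) q
    rw [norm_one, ← dist_eq_norm] at h2
    rw [dist_comm] at hqn
    linarith
  have hno' : ‖q'‖ ≤ 101 / 100 := by
    have h2 := norm_le_norm_add_norm_sub (1 : ℂ) q'
    rw [norm_one, ← dist_eq_norm] at h2
    rw [dist_comm] at hqn'
    linarith
  rw [abs_le] at hz1 hz2 hy1 hy2 ha hb ha' hb'
  have s0 : 97 / 100 ≤ σ := by rw [hσ]; linarith
  have r0 : 0 ≤ r := by rw [hr]; linarith
  have r1 : r ≤ 103 / 100 := by rw [hr]; linarith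
  have hn2' : n2 ≠ 0 := by
    intro h2
    rw [h2, mul_zero] at horth
    have h3 : n1 = 0 := by
      rcases mul_eq_zero.1 horth with h3 | h3
      · linarith
      · exact h3
    apply hzy
    apply Complex.ext
    · linarith
    · linarith
  -- `r Δ1 = - σ Δ2`
  have hr' : r * (q.re - q'.re) = -(σ * (q.im - q'.im)) := by
    have e : n2 * (r * (q.re - q'.re) + σ * (q.im - q'.im)) = 0 := by
      linear_combination (-(q.re - q'.re)) * horth + σ * hΔ
    rcases mul_eq_zero.1 e with h2 | h2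
    · exact absurd h2 hn2'
    · linarith
  set D1 : ℝ := |q.re - q'.re| with hD1
  set D2 : ℝ := |q.im - q'.im| with hD2
  have hD1n : 0 ≤ D1 := abs_nonneg _
  have hD2n : 0 ≤ D2 := abs_nonneg _
  have hD : D2 ≤ 107 / 100 * D1 := by
    have e : r * D1 = σ * D2 := by
      have := congrArg abs hr'
      rwa [abs_neg, abs_mul, abs_mul, abs_of_nonneg (by linarith : (0 : ℝ) ≤ σ),
        abs_of_nonneg r0] at this
    have h2 : 97 / 100 * D2 ≤ σ * D2 := mul_le_mul_of_nonneg_right s0 hD2n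
    have h3 : r * D1 ≤ 103 / 100 * D1 := mul_le_mul_of_nonneg_right r1 hD1n
    linarith
  -- lower bound
  have hlow : 195 / 100 * D1 ≤ |‖q‖ ^ 2 - ‖q'‖ ^ 2| := by
    have e : (q.re - q'.re) * (q.re + q'.re) =
        (‖q‖ ^ 2 - ‖q'‖ ^ 2) - (q.im - q'.im) * (q.im + q'.im) := by
      rw [geo_norm_sq, geo_norm_sq]; ring
    have h2 := congrArg abs e
    rw [abs_mul] at h2
    have h3 := abs_sub (‖q‖ ^ 2 - ‖q'‖ ^ 2) ((q.im - q'.im) * (q.im + q'.im))
    rw [abs_mul (q.im - q'.im)] at h3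
    have h4 : 198 / 100 ≤ |q.re + q'.re| := by
      rw [abs_of_nonneg (by linarith)]
      linarith
    have h5 : |q.im + q'.im| ≤ 2 / 100 := by
      rw [abs_le]
      constructor <;> linarith
    have h6 : D1 * (198 / 100) ≤ D1 * |q.re + q'.re| := mul_le_mul_of_nonneg_left h4 hD1n
    have h7 : D2 * |q.im + q'.im| ≤ D2 * (2 / 100) := mul_le_mul_of_nonneg_left h5 hD2n
    linarith
  -- upper bound
  have hd : dist x0 x0' ≤ 20 * s + (D1 + D2) := by
    have h2 : dist q q' ≤ D1 + D2 := by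
      rw [Complex.dist_eq]
      have := Complex.norm_le_abs_re_add_abs_im (q - q')
      simpa only [Complex.sub_re, Complex.sub_im] using this
    have h3 := dist_triangle4 x0 q q' x0'
    rw [dist_comm x0 q] at h3
    linarith
  have hsmall : dist x0 x0' ≤ 1 / 100 := by
    have h3 := dist_triangle x0 1 x0'
    rw [dist_comm 1 x0'] at h3
    linarith
  have hsl := hs x0 hx0 x0' hx0' hsmall
  have hup1 : |‖q‖ - ‖q'‖| ≤ 21 * s + 1 / 9 * dist x0 x0' := by
    have h2 : |‖q‖ - ‖x0‖| ≤ dist q x0 := by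
      rw [dist_eq_norm]
      exact abs_norm_sub_norm_le _ _
    have h3 : |‖x0'‖ - ‖q'‖| ≤ dist q' x0' := by
      rw [dist_comm, dist_eq_norm]
      exact abs_norm_sub_norm_le _ _
    have e : ‖q‖ - ‖q'‖ = (‖q‖ - ‖x0‖) + (‖x0‖ - ‖x0'‖) + (‖x0'‖ - ‖q'‖) := by ring
    rw [e]
    refine (abs_add_three _ _ _).trans ?_
    linarith
  have hup : |‖q‖ ^ 2 - ‖q'‖ ^ 2| ≤ 202 / 100 * (21 * s + 1 / 9 * dist x0 x0') := by
    have e : ‖q‖ ^ 2 - ‖q'‖ ^ 2 = (‖q‖ + ‖q'‖) * (‖q‖ - ‖q'‖) := by ring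
    rw [e, abs_mul, abs_of_nonneg (by positivity)]
    exact mul_le_mul (by linarith) hup1 (abs_nonneg _) (by norm_num)
  linarith

end Pool.Agent.Vpq
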