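import Pool.Agent.Lib.Vpq.Defs
import Pool.Agent.Lib.Vpq.NearB
import Pool.Agent.Lib.Vpq.NearC

/-!
# Counting the unstable pairs (MP_733c86_co)
-/

set_option autoImplicit false

open Finset Pool.Agent.Vps Pool.Agent.Vpd Pool.Agent.Vpt
open scoped ComplexConjugate

namespace Pool.Agent.Vpq

private theorem mem_filter_instC {α : Type*} {p : α → Prop} {inst : DecidablePred p} {s : Finset α}
    {a : α} : a ∈ @Finset.filter α p inst s ↔ a ∈ s ∧ p a := Finset.mem_filter

/-- PROOF. For a pair `(z, y)` of different far points let `S` be the set of the near `x0 ∈ X`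
(`dist x0 1 ≤ 1 / 200`) with at most `K` points within `100 s` for which some `x' ∈ X`,
`dist x' x0 ≤ 10 s` (so `dist x' 1 ≤ 1 / 100`), has `Inv x0 x' z y`. If `S` is not empty, `(z, y)` (or
`(y, z)`) is in `CP X (50 * s)` (`inv_close'`), and `S` is in `ball X x0 (100 s)` for any `x0 ∈ S`
(`inv_diam`), so `card S ≤ K`. For each triple `x0 ∈ S`, `z`, `y` and each `b ≤ 6` there are at most two
far `z0` with `R X x0 z0 = R X x0 z - b` (`far_le_two`): `7 * 2 = 14`. -/
theorem card_Q6 {X : Finset ℂ} {e T s K : ℝ} (h : Ann X e T) (hT : T ≤ 1 / 10 ^ 6)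
    (hs0 : 0 ≤ s) (hs1 : s ≤ 1 / 10 ^ 6) (hs : Slp X s) (hK : 0 ≤ K) :
    ((Q6 X s K).card : ℝ) ≤ 14 * ((CP X (50 * s)).card * K) := by
  classical
  let S : ℂ × ℂ → Finset ℂ := fun q => X.filter fun x0 => dist x0 1 ≤ 1 / 200 ∧
    ((ball X x0 (100 * s)).card : ℝ) ≤ K ∧ dist q.1 Complex.I ≤ 1 / 50 ∧
    dist q.2 Complex.I ≤ 1 / 50 ∧ ∃ x' ∈ X, dist x' x0 ≤ 10 * s ∧ Inv x0 x' q.1 q.2
  have near : ∀ x0 x' : ℂ, dist x0 1 ≤ 1 / 200 → dist x' x0 ≤ 10 * s → dist x' 1 ≤ 1 / 100 := by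
    intro x0 x' h1 h2
    have := dist_triangle x' x0 1
    linarith
  have hS : ∀ q ∈ CP X (50 * s), ((S q).card : ℝ) ≤ K := by
    intro q hq
    rw [CP, Finset.mem_filter] at hq
    by_cases hne : (S q).Nonempty
    · obtain ⟨x0, hx0⟩ := hne
      obtain ⟨hx0X, a1, a2, a3, a4, x1, hx1, a5, a6⟩ := mem_filter_instC.1 hx0
      have hsub : S q ⊆ ball X x0 (100 * s) := by
        intro y hy
        obtain ⟨hyX, b1, b2, b3, b4, y1, hy1, b5, b6⟩ := mem_filter_instC.1 hy
        rw [mem_ball]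
        refine ⟨hyX, ?_⟩
        exact inv_diam hs0 hs hyX hx0X b1 a1 (near _ _ b1 b5) (near _ _ a1 a5) b5 a5 a3 a4
          hq.2.1 b6 a6
      exact (Nat.cast_le.2 (Finset.card_le_card hsub)).trans a2
    · rw [Finset.not_nonempty_iff_eq_empty] at hne
      rw [hne]
      simpa using hK
  have hcover : Q6 X s K ⊆ (CP X (50 * s)).biUnion fun q => (S q).biUnion fun x0 =>
      (Finset.range 7).biUnion fun b =>
        (X.filter fun z0 => dist z0 Complex.I ≤ 1 / 50 ∧ R X x0 z0 = R X x0 q.1 - b).image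
          fun z0 => (x0, z0) := by
    intro p hp
    unfold Q6 at hp
    obtain ⟨hnf, hball, z, hz, hz1, ⟨b, hb, hR⟩, x', hx', hx'1, y, hy, hy1, hyz, hinv⟩ :=
      mem_filter_instC.1 hp
    unfold NF at hnf
    rw [Finset.mem_product, Finset.mem_filter, Finset.mem_filter] at hnf
    obtain ⟨⟨hx0, hx01⟩, hz0, hz01⟩ := hnf
    have hclose : dist z y ≤ 50 * s :=
      inv_close' hT hs (hx01.trans (by norm_num)) (near _ _ hx01 hx'1) hz1 hy1 hz hy
        (h.ann z hz) (h.ann y hy) hinv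
    rw [Finset.mem_biUnion]
    refine ⟨(z, y), ?_, ?_⟩
    · rw [CP, Finset.mem_filter]
      exact ⟨Finset.mem_product.2 ⟨hz, hy⟩, hyz.symm, by rw [dist_comm]; exact hclose⟩
    · rw [Finset.mem_biUnion]
      refine ⟨p.1, mem_filter_instC.2 ⟨hx0, hx01, hball, hz1, hy1, x', hx', hx'1, hinv⟩, ?_⟩
      rw [Finset.mem_biUnion]
      refine ⟨b, Finset.mem_range.2 (by omega), ?_⟩
      rw [Finset.mem_image]
      refine ⟨p.2, Finset.mem_filter.2 ⟨hz0, hz01.trans (by norm_num), ?_⟩, rfl⟩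
      show R X p.1 p.2 = R X p.1 z - b
      omega
  have h1 : ((Q6 X s K).card : ℝ) ≤ ∑ q ∈ CP X (50 * s), (14 * K) := by
    have h2 : (Q6 X s K).card ≤ ∑ q ∈ CP X (50 * s), 14 * (S q).card := by
      refine (Finset.card_le_card hcover).trans (Finset.card_biUnion_le.trans ?_)
      apply Finset.sum_le_sum
      intro q _
      refine Finset.card_biUnion_le.trans ?_
      refine le_trans (Finset.sum_le_card_nsmul _ _ 14 ?_) (by rw [smul_eq_mul, mul_comm])
      intro x0 hx0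
      obtain ⟨hx0X, a1, -⟩ := mem_filter_instC.1 hx0
      refine Finset.card_biUnion_le.trans ?_
      refine le_trans (Finset.sum_le_card_nsmul _ _ 2 ?_) (by rw [Finset.card_range]; norm_num)
      intro b _
      exact Finset.card_image_le.trans
        (far_le_two h.toSys hx0X (a1.trans (by norm_num)) (R X x0 q.1 - b))
    calc ((Q6 X s K).card : ℝ) ≤ ((∑ q ∈ CP X (50 * s), 14 * (S q).card : ℕ) : ℝ) := by
          exact_mod_cast h2
      _ = ∑ q ∈ CP X (50 * s), 14 * ((S q).card : ℝ) := by push_cast; rfl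
      _ ≤ ∑ q ∈ CP X (50 * s), (14 * K) := Finset.sum_le_sum fun q hq => by
          have := hS q hq
          linarith
  rw [Finset.sum_const, nsmul_eq_mul] at h1
  calc ((Q6 X s K).card : ℝ) ≤ (CP X (50 * s)).card * (14 * K) := h1
    _ = 14 * ((CP X (50 * s)).card * K) := by ring

end Pool.Agent.Vpq
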