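import Pool.Agent.Lib.Vpd.Main
import Pool.Agent.Lib.Vpt.CoinClose

/-!
# Exceptional pairs of a near and a far point (MP_733c86_co)
-/

set_option autoImplicit false

open Finset Pool.Agent.Vps Pool.Agent.Vpd Pool.Agent.Vpt
open scoped ComplexConjugate

namespace Pool.Agent.Vpq

/-- The pairs of a near and a far point. -/
noncomputable def NF (X : Finset ℂ) : Finset (ℂ × ℂ) :=
  (X.filter fun x => dist x 1 ≤ 1 / 200) ×ˢ (X.filter fun z => dist z Complex.I ≤ 1 / 200)

/-- At most two far points at a given rank of a near point. -/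
theorem far_le_two {X : Finset ℂ} {e : ℝ} (h : Sys X e) {x : ℂ} (hx : x ∈ X)
    (hx1 : dist x 1 ≤ 1 / 20) (k : ℕ) :
    (X.filter fun z => dist z Complex.I ≤ 1 / 50 ∧ R X x z = k).card ≤ 2 := by
  by_cases hemp : (X.filter fun z => dist z Complex.I ≤ 1 / 50 ∧ R X x z = k).Nonempty
  · obtain ⟨z0, hz0⟩ := hemp
    rw [Finset.mem_filter] at hz0
    refine le_trans (Finset.card_le_card ?_) (h.valid x hx (dist x z0))
    intro z hz
    rw [Finset.mem_filter] at hz ⊢
    refine ⟨hz.1, (ne_of_near hx1 hz.2.1).symm, ?_⟩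
    exact dist_eq_of_R_eq (dist_mem_Dset hx hz.1 (ne_of_near hx1 hz.2.1))
      (dist_mem_Dset hx hz0.1 (ne_of_near hx1 hz0.2.1)) (hz.2.2.trans hz0.2.2.symm)
  · rw [Finset.not_nonempty_iff_eq_empty] at hemp
    rw [hemp]; simp

theorem R_comm {X : Finset ℂ} (x z : ℂ) : R X x z = R X z x := by
  unfold R
  rw [dist_comm]

/-- At most two near points at a given rank of a far point. -/
theorem near_le_two {X : Finset ℂ} {e : ℝ} (h : Sys X e) {z : ℂ} (hz : z ∈ X)
    (hz1 : dist z Complex.I ≤ 1 / 50) (k : ℕ) :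
    (X.filter fun x => dist x 1 ≤ 1 / 20 ∧ R X x z = k).card ≤ 2 := by
  by_cases hemp : (X.filter fun x => dist x 1 ≤ 1 / 20 ∧ R X x z = k).Nonempty
  · obtain ⟨z0, hz0⟩ := hemp
    rw [Finset.mem_filter] at hz0
    refine le_trans (Finset.card_le_card ?_) (h.valid z hz (dist z z0))
    intro x hx
    rw [Finset.mem_filter] at hx ⊢
    refine ⟨hx.1, ne_of_near hx.2.1 hz1, ?_⟩
    have h1 := dist_eq_of_R_eq (dist_mem_Dset hx.1 hz (ne_of_near hx.2.1 hz1))
      (dist_mem_Dset hz0.1 hz (ne_of_near hz0.2.1 hz1)) (hx.2.2.trans hz0.2.2.symm)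
    rw [dist_comm z x, h1, dist_comm]
  · rw [Finset.not_nonempty_iff_eq_empty] at hemp
    rw [hemp]; simp

open Classical in
/-- Some rank `r0, ..., r0 + 3` is bad for the far point. -/
noncomputable def Q2 (X : Finset ℂ) : Finset (ℂ × ℂ) :=
  (NF X).filter fun p => ∃ a ≤ 3, R X p.1 p.2 + a ∈ BadR X p.2

open Classical in
/-- Some near point `x` at rank `r0 + a`, `a ≤ 3`, of the far point has a bad rank among
`r0 + a, ..., r0 + a + 6` (`x = p.1`, `a = 0` included). -/
noncomputable def Q3 (X : Finset ℂ) : Finset (ℂ × ℂ) :=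
  (NF X).filter fun p => ∃ x ∈ X, dist x 1 ≤ 1 / 20 ∧ ∃ a ≤ 3, R X x p.2 = R X p.1 p.2 + a ∧
    ∃ b ≤ 6, R X x p.2 + b ∈ BadR X x

open Classical in
/-- Few distances just above the distance of the pair. -/
noncomputable def Q4 (X : Finset ℂ) (s : ℝ) : Finset (ℂ × ℂ) :=
  (NF X).filter fun p => ((Dset X).filter fun d => dist p.1 p.2 < d ∧ d ≤ dist p.1 p.2 + s).card < 3

open Classical in
/-- The near point has many points of `X` within `100 s`. -/
noncomputable def Q5 (X : Finset ℂ) (s K : ℝ) : Finset (ℂ × ℂ) :=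
  (NF X).filter fun p => K < ((ball X p.1 (100 * s)).card : ℝ)

open Classical in
/-- The near point has at most `K` points of `X` within `100 s`, and one of the far points `z` of rank
`r0, ..., r0 + 6` changes its order with some far `y` between the near point and a point of `X` within
`10 s` of it. -/
noncomputable def Q6 (X : Finset ℂ) (s K : ℝ) : Finset (ℂ × ℂ) :=
  (NF X).filter fun p => ((ball X p.1 (100 * s)).card : ℝ) ≤ K ∧ ∃ z ∈ X,
    dist z Complex.I ≤ 1 / 50 ∧ (∃ b ≤ 6, R X p.1 z = R X p.1 p.2 + b) ∧ ∃ x' ∈ X,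
      dist x' p.1 ≤ 10 * s ∧ ∃ y ∈ X, dist y Complex.I ≤ 1 / 50 ∧ y ≠ z ∧ Inv p.1 x' z y

end Pool.Agent.Vpq
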