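import Pool.Agent.Lib.Vpw.Pairs2

/-!
# Few pairs within `100 s` (MP_733c86_co)
-/

set_option autoImplicit false

open Finset Pool.Agent.Vps Pool.Agent.Vpt Pool.Agent.Vpw
open scoped ComplexConjugate

namespace Pool.Agent.Vpq

/-- PROOF. `e' = 2 e + 1`, `e' + 1 = 2 (e + 1)`: `Ann X e' (5 e' / X.card)` (only `defect`, `nonneg`, `ann`
are weakened), so `slp` and `pairs_bound2` apply with `e'`: the radius there is
`50 * (2 * (10 ^ 5 * (2 (e + 1)) / X.card) ^ 2) = 200 s ≥ 100 s` and the bound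
`10 ^ 45 * (2 (e + 1)) ^ 2`. -/
theorem pairs_100 {X : Finset ℂ} {e : ℝ} (h : Ann X e (5 * e / X.card)) (hcol : NoCol X)
    (hn : 10 ^ 41 * (e + 1) ≤ X.card) :
    ((CP X (100 * (2 * (10 ^ 5 * (e + 1) / X.card) ^ 2))).card : ℝ) ≤
      4 * 10 ^ 45 * (e + 1) ^ 2 := by
  have he : 0 ≤ e := h.nonneg
  have hn0 : (0 : ℝ) ≤ X.card := Nat.cast_nonneg _
  have hA : Ann X (2 * e + 1) (5 * (2 * e + 1) / X.card) :=
    { valid := h.valid
      defect := by have := h.defect; linarith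
      nonneg := by linarith
      sum_zero := h.sum_zero
      ann := fun x hx => (h.ann x hx).trans
        (div_le_div_of_nonneg_right (by linarith) hn0)
      nonempty := h.nonempty }
  have hn' : 10 ^ 40 * ((2 * e + 1) + 1) ≤ (X.card : ℝ) := by
    have h1 : (10 : ℝ) ^ 40 * ((2 * e + 1) + 1) ≤ 10 ^ 41 * (e + 1) := by
      have : (0 : ℝ) ≤ e + 1 := by linarith
      nlinarith
    exact h1.trans hn
  have h1 := pairs_bound2 hA hcol hn' (slp hA hn')
  have h2 : (10 : ℝ) ^ 45 * ((2 * e + 1) + 1) ^ 2 = 4 * 10 ^ 45 * (e + 1) ^ 2 := by ring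
  rw [h2] at h1
  refine le_trans ?_ h1
  have hsub : CP X (100 * (2 * (10 ^ 5 * (e + 1) / X.card) ^ 2)) ⊆
      CP X (50 * (2 * (10 ^ 5 * ((2 * e + 1) + 1) / X.card) ^ 2)) := by
    intro p hp
    rw [CP, Finset.mem_filter] at hp ⊢
    refine ⟨hp.1, hp.2.1, hp.2.2.trans ?_⟩
    have h3 : (10 : ℝ) ^ 5 * ((2 * e + 1) + 1) / X.card = 2 * (10 ^ 5 * (e + 1) / X.card) := by
      ring
    rw [h3]
    have h4 : (0 : ℝ) ≤ (10 ^ 5 * (e + 1) / X.card) ^ 2 := by positivity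
    have h5 : (50 : ℝ) * (2 * (2 * (10 ^ 5 * (e + 1) / X.card)) ^ 2) =
      400 * (10 ^ 5 * (e + 1) / X.card) ^ 2 := by ring
    rw [h5]
    linarith
  exact_mod_cast Finset.card_le_card hsub

end Pool.Agent.Vpq
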