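import Pool.Agent.Lib.Vpq.Pick
import Pool.Agent.Lib.Vpq.PairsL
import Pool.Agent.Lib.Vpq.CntA
import Pool.Agent.Lib.Vpq.CntB
import Pool.Agent.Lib.Vpq.CntC

/-!
# The main theorem for sets of complex numbers (MP_733c86_co)
-/

set_option autoImplicit false

open Finset Pool.Agent.Vps Pool.Agent.Vpd Pool.Agent.Vpt
open scoped ComplexConjugate

namespace Pool.Agent.Vpq

/-- A finite set with small exceptional subsets has a good element. -/
theorem exists_good {α : Type*} [DecidableEq α] {N A B C D F : Finset α}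
    (h : (A.card : ℝ) + B.card + C.card + D.card + F.card < N.card) :
    ∃ p ∈ N, p ∉ A ∧ p ∉ B ∧ p ∉ C ∧ p ∉ D ∧ p ∉ F := by
  by_contra hcon
  push Not at hcon
  have hsub : N ⊆ A ∪ B ∪ C ∪ D ∪ F := by
    intro p hp
    simp only [Finset.mem_union]
    by_contra h1
    push Not at h1
    obtain ⟨⟨⟨⟨h1, h2⟩, h3⟩, h4⟩, h5⟩ := h1
    exact h5 (hcon p hp h1 h2 h3 h4)
  have h2 : (N.card : ℝ) ≤ (A.card : ℝ) + B.card + C.card + D.card + F.card := by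
    have h3 : N.card ≤ A.card + B.card + C.card + D.card + F.card := by
      refine (Finset.card_le_card hsub).trans ?_
      refine (Finset.card_union_le _ _).trans (Nat.add_le_add_right ?_ _)
      refine (Finset.card_union_le _ _).trans (Nat.add_le_add_right ?_ _)
      refine (Finset.card_union_le _ _).trans (Nat.add_le_add_right ?_ _)
      exact Finset.card_union_le _ _
    exact_mod_cast h3
  linarith

/-- The numerical conditions. -/
theorem numQ {n E s K c50 c100 bad q2 q3 q4 q5 q6 : ℝ} (hn : 0 < n) (hE : 1 ≤ E)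
    (hE4 : 10 ^ 120 * E ^ 4 ≤ n ^ 3) (hE2 : n ≤ E ^ 2) (hs : s = 2 * (10 ^ 5 * E / n) ^ 2)
    (hK : K = 10 ^ 56 * E ^ 2 / n) (hc50 : c50 ≤ 10 ^ 45 * E ^ 2) (hc500 : 0 ≤ c50)
    (hc100 : c100 ≤ 4 * 10 ^ 45 * E ^ 2) (hbad : bad ≤ n * E + 2 * c50)
    (h2 : q2 ≤ 8 * bad) (h3 : q3 ≤ 112 * bad) (h4 : q4 ≤ n * (6 * (1 / s + 1)))
    (h5 : q5 ≤ n * ((c100 + n) / K)) (h6 : q6 ≤ 14 * (c50 * K)) :
    q2 + q3 + q4 + q5 + q6 < n ^ 2 / (9 * 10 ^ 6) := by
  have hE0 : 0 < E := by linarith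
  have hE20 : 0 < E ^ 2 := by positivity
  have hn2 : 0 < n ^ 2 := by positivity
  have hE4' : n ^ 2 ≤ E ^ 4 := by
    calc n ^ 2 ≤ (E ^ 2) ^ 2 := pow_le_pow_left₀ hn.le hE2 2
      _ = E ^ 4 := by ring
  have hn120 : 10 ^ 120 ≤ n := by
    have h7 : n ^ 2 * 10 ^ 120 ≤ n ^ 2 * n := by
      calc n ^ 2 * 10 ^ 120 = 10 ^ 120 * n ^ 2 := by ring
        _ ≤ 10 ^ 120 * E ^ 4 := mul_le_mul_of_nonneg_left hE4' (by positivity)
        _ ≤ n ^ 3 := hE4
        _ = n ^ 2 * n := by ring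
    exact le_of_mul_le_mul_left h7 hn2
  have hE60 : 10 ^ 60 * E ≤ n := by
    have h7 : (10 ^ 60 * E) ^ 4 ≤ n ^ 4 := by
      calc (10 ^ 60 * E) ^ 4 = 10 ^ 120 * (10 ^ 120 * E ^ 4) := by ring
        _ ≤ 10 ^ 120 * n ^ 3 := mul_le_mul_of_nonneg_left hE4 (by positivity)
        _ ≤ n * n ^ 3 := mul_le_mul_of_nonneg_right hn120 (by positivity)
        _ = n ^ 4 := by ring
    exact (pow_le_pow_iff_left₀ (by positivity) hn.le (by norm_num)).1 h7
  have hK0 : 0 < K := by rw [hK]; positivity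
  have hs0 : 0 < s := by rw [hs]; positivity
  -- c50 ≤ small n E
  have hc50' : c50 ≤ n * E / 10 ^ 14 := by
    rw [le_div_iff₀ (by norm_num)]
    calc c50 * 10 ^ 14 ≤ 10 ^ 45 * E ^ 2 * 10 ^ 14 :=
          mul_le_mul_of_nonneg_right hc50 (by positivity)
      _ = (10 ^ 59 * E) * E := by ring
      _ ≤ n * E := mul_le_mul_of_nonneg_right (by linarith) hE0.le
  have hnE : 0 < n * E := by positivity
  have hbad' : bad ≤ 2 * (n * E) := by
    have : n * E / 10 ^ 14 ≤ n * E / 2 := by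
      apply div_le_div_of_nonneg_left hnE.le (by norm_num) (by norm_num)
    linarith
  have hnE' : n * E ≤ n ^ 2 / 10 ^ 60 := by
    rw [le_div_iff₀ (by positivity)]
    calc n * E * 10 ^ 60 = n * (10 ^ 60 * E) := by ring
      _ ≤ n * n := mul_le_mul_of_nonneg_left hE60 hn.le
      _ = n ^ 2 := by ring
  have t23 : q2 + q3 ≤ n ^ 2 / 10 ^ 50 := by
    have h7 : n ^ 2 / 10 ^ 60 * 240 ≤ n ^ 2 / 10 ^ 50 := by
      rw [div_mul_eq_mul_div, div_le_div_iff₀ (by positivity) (by positivity)]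
      have : n ^ 2 * 240 * 10 ^ 50 ≤ n ^ 2 * 10 ^ 60 := by
        have h8 : (240 : ℝ) * 10 ^ 50 ≤ 10 ^ 60 := by norm_num
        calc n ^ 2 * 240 * 10 ^ 50 = n ^ 2 * (240 * 10 ^ 50) := by ring
          _ ≤ n ^ 2 * 10 ^ 60 := mul_le_mul_of_nonneg_left h8 hn2.le
      exact this
    linarith
  have t4 : q4 ≤ n ^ 2 / 10 ^ 9 := by
    have h7 : n * (1 / s) ≤ n ^ 2 / (2 * 10 ^ 10) := by
      rw [hs, mul_one_div, div_le_div_iff₀ (by positivity) (by positivity)]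
      have h8 : n ^ 2 * (2 * (10 ^ 5 * E / n) ^ 2) = 2 * 10 ^ 10 * E ^ 2 := by
        field_simp
      rw [h8]
      calc n * (2 * 10 ^ 10) ≤ E ^ 2 * (2 * 10 ^ 10) :=
            mul_le_mul_of_nonneg_right hE2 (by positivity)
        _ = 2 * 10 ^ 10 * E ^ 2 := by ring
    have h8 : n * (6 * (1 / s + 1)) = 6 * (n * (1 / s)) + 6 * n := by ring
    have h9 : n ≤ n ^ 2 / 10 ^ 120 := by
      rw [le_div_iff₀ (by positivity)]
      calc n * 10 ^ 120 ≤ n * n := mul_le_mul_of_nonneg_left hn120 hn.le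
        _ = n ^ 2 := by ring
    have h10 : 6 * (n ^ 2 / (2 * 10 ^ 10)) + 6 * (n ^ 2 / 10 ^ 120) ≤ n ^ 2 / 10 ^ 9 := by
      have h11 : n ^ 2 / 10 ^ 120 ≤ n ^ 2 / 10 ^ 11 :=
        div_le_div_of_nonneg_left hn2.le (by norm_num) (by norm_num)
      have h12 : 6 * (n ^ 2 / (2 * 10 ^ 10)) + 6 * (n ^ 2 / 10 ^ 11) ≤ n ^ 2 / 10 ^ 9 := by
        have h13 : 6 * (n ^ 2 / (2 * 10 ^ 10)) + 6 * (n ^ 2 / 10 ^ 11) =
          n ^ 2 * (36 / 10 ^ 11) := by ring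
        have h14 : n ^ 2 / 10 ^ 9 = n ^ 2 * (1 / 10 ^ 9) := by ring
        rw [h13, h14]
        exact mul_le_mul_of_nonneg_left (by norm_num) hn2.le
      linarith
    linarith
  have t5 : q5 ≤ n ^ 2 / 10 ^ 9 := by
    refine h5.trans ?_
    have h7 : c100 + n ≤ 5 * 10 ^ 45 * E ^ 2 := by
      have : E ^ 2 ≤ 10 ^ 45 * E ^ 2 := le_mul_of_one_le_left hE20.le (by norm_num)
      linarith
    have h8 : (c100 + n) / K ≤ 5 * n / 10 ^ 11 := by
      rw [hK, div_le_div_iff₀ (by positivity) (by positivity)]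
      have h9 : 5 * n * (10 ^ 56 * E ^ 2 / n) = 5 * 10 ^ 56 * E ^ 2 := by
        field_simp
      rw [h9]
      calc (c100 + n) * 10 ^ 11 ≤ 5 * 10 ^ 45 * E ^ 2 * 10 ^ 11 :=
            mul_le_mul_of_nonneg_right h7 (by positivity)
        _ = 5 * 10 ^ 56 * E ^ 2 := by ring
    calc n * ((c100 + n) / K) ≤ n * (5 * n / 10 ^ 11) := mul_le_mul_of_nonneg_left h8 hn.le
      _ = n ^ 2 * (5 / 10 ^ 11) := by ring
      _ ≤ n ^ 2 * (1 / 10 ^ 9) := mul_le_mul_of_nonneg_left (by norm_num) hn2.le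
      _ = n ^ 2 / 10 ^ 9 := by ring
  have t6 : q6 ≤ n ^ 2 / 10 ^ 9 := by
    refine h6.trans ?_
    have h7 : c50 * K ≤ 10 ^ 45 * E ^ 2 * K := mul_le_mul_of_nonneg_right hc50 hK0.le
    have h8 : 10 ^ 45 * E ^ 2 * K = 10 ^ 101 * E ^ 4 / n := by
      rw [hK]
      field_simp
    have h9 : 10 ^ 101 * E ^ 4 / n ≤ n ^ 2 / 10 ^ 19 := by
      rw [div_le_div_iff₀ hn (by positivity)]
      calc 10 ^ 101 * E ^ 4 * 10 ^ 19 = 10 ^ 120 * E ^ 4 := by ring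
        _ ≤ n ^ 3 := hE4
        _ = n ^ 2 * n := by ring
    have h10 : 14 * (n ^ 2 / 10 ^ 19) ≤ n ^ 2 / 10 ^ 9 := by
      have h11 : 14 * (n ^ 2 / 10 ^ 19) = n ^ 2 * (14 / 10 ^ 19) := by ring
      have h12 : n ^ 2 / 10 ^ 9 = n ^ 2 * (1 / 10 ^ 9) := by ring
      rw [h11, h12]
      exact mul_le_mul_of_nonneg_left (by norm_num) hn2.le
    linarith
  have hfin : n ^ 2 / 10 ^ 50 + n ^ 2 / 10 ^ 9 + n ^ 2 / 10 ^ 9 + n ^ 2 / 10 ^ 9 <
      n ^ 2 / (9 * 10 ^ 6) := by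
    have h7 : n ^ 2 / 10 ^ 50 ≤ n ^ 2 / 10 ^ 9 :=
      div_le_div_of_nonneg_left hn2.le (by norm_num) (by norm_num)
    have h8 : n ^ 2 / (9 * 10 ^ 6) = n ^ 2 * (1 / (9 * 10 ^ 6)) := by ring
    have h9 : n ^ 2 / 10 ^ 9 = n ^ 2 * (1 / 10 ^ 9) := by ring
    have h10 : n ^ 2 * (4 * (1 / 10 ^ 9)) < n ^ 2 * (1 / (9 * 10 ^ 6)) :=
      mul_lt_mul_of_pos_left (by norm_num) hn2
    linarith
  linarith

theorem mainQ {X : Finset ℂ} {e : ℝ} (h : Sys X e) (h0 : ∑ x ∈ X, x = 0)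
    (h1 : ∑ x ∈ X, ‖x‖ ^ 2 = X.card) (hcol : NoCol X) (hcirc : NoCirc X)
    (hE4 : 10 ^ 120 * (e + 1) ^ 4 ≤ (X.card : ℝ) ^ 3) (hE2 : (X.card : ℝ) ≤ (e + 1) ^ 2) :
    False := by
  classical
  have he0 := h.nonneg
  have hE : 1 ≤ e + 1 := by linarith
  have hE0 : 0 < e + 1 := by linarith
  have hn0' : (0 : ℝ) ≤ X.card := by positivity
  have hnpos : (0 : ℝ) < X.card := by
    by_contra hc
    have h2 : (X.card : ℝ) = 0 := le_antisymm (not_lt.1 hc) hn0'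
    rw [h2] at hE4
    have : (0 : ℝ) < 10 ^ 120 * (e + 1) ^ 4 := by positivity
    norm_num at hE4
    linarith
  have hne : X.Nonempty := by
    rw [← Finset.card_pos]
    exact Nat.cast_pos.1 hnpos
  set n : ℝ := (X.card : ℝ) with hn
  have hcardE : (X.card : ℝ) = n := rfl
  have hn2 : 0 < n ^ 2 := by positivity
  have hE4' : n ^ 2 ≤ (e + 1) ^ 4 := by
    calc n ^ 2 ≤ ((e + 1) ^ 2) ^ 2 := pow_le_pow_left₀ hn0' hE2 2
      _ = (e + 1) ^ 4 := by ring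
  have hn120 : 10 ^ 120 ≤ n := by
    have h7 : n ^ 2 * 10 ^ 120 ≤ n ^ 2 * n := by
      calc n ^ 2 * 10 ^ 120 = 10 ^ 120 * n ^ 2 := by ring
        _ ≤ 10 ^ 120 * (e + 1) ^ 4 := mul_le_mul_of_nonneg_left hE4' (by positivity)
        _ ≤ n ^ 3 := hE4
        _ = n ^ 2 * n := by ring
    exact le_of_mul_le_mul_left h7 hn2
  have hE60 : 10 ^ 60 * (e + 1) ≤ n := by
    have h7 : (10 ^ 60 * (e + 1)) ^ 4 ≤ n ^ 4 := by
      calc (10 ^ 60 * (e + 1)) ^ 4 = 10 ^ 120 * (10 ^ 120 * (e + 1) ^ 4) := by ring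
        _ ≤ 10 ^ 120 * n ^ 3 := mul_le_mul_of_nonneg_left hE4 (by positivity)
        _ ≤ n * n ^ 3 := mul_le_mul_of_nonneg_right hn120 (by positivity)
        _ = n ^ 4 := by ring
    exact (pow_le_pow_iff_left₀ (by positivity) hn0' (by norm_num)).1 h7
  have hE40 : 10 ^ 40 * (e + 1) ≤ n := by
    have : 10 ^ 40 * (e + 1) ≤ 10 ^ 60 * (e + 1) :=
      mul_le_mul_of_nonneg_right (by norm_num) hE0.le
    linarith
  have hE41 : 10 ^ 41 * (e + 1) ≤ n := by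
    have : 10 ^ 41 * (e + 1) ≤ 10 ^ 60 * (e + 1) :=
      mul_le_mul_of_nonneg_right (by norm_num) hE0.le
    linarith
  have hA : Ann X e (5 * e / X.card) := annulus h hne h0 h1 (by
    have : 20 * e ≤ 10 ^ 40 * (e + 1) := by linarith
    exact this.trans hE40)
  set s : ℝ := 2 * (10 ^ 5 * (e + 1) / X.card) ^ 2 with hs
  have hs0 : 0 < s := by positivity
  have hs1 : s ≤ 1 / 10 ^ 6 := by
    have h2 : 10 ^ 5 * (e + 1) / X.card ≤ 1 / 10 ^ 4 := by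
      rw [div_le_div_iff₀ hnpos (by norm_num)]
      have : 10 ^ 5 * (e + 1) * 10 ^ 4 ≤ 10 ^ 40 * (e + 1) := by
        calc 10 ^ 5 * (e + 1) * 10 ^ 4 = 10 ^ 9 * (e + 1) := by ring
          _ ≤ 10 ^ 40 * (e + 1) := mul_le_mul_of_nonneg_right (by norm_num) hE0.le
      linarith
    have h3 : (10 ^ 5 * (e + 1) / X.card) ^ 2 ≤ (1 / 10 ^ 4) ^ 2 :=
      pow_le_pow_left₀ (by positivity) h2 2
    rw [hs]
    calc 2 * (10 ^ 5 * (e + 1) / (X.card : ℝ)) ^ 2 ≤ 2 * (1 / 10 ^ 4) ^ 2 :=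
          mul_le_mul_of_nonneg_left h3 (by norm_num)
      _ ≤ 1 / 10 ^ 6 := by norm_num
  have hSlp : Slp X s := slp hA hE40
  have hP50 : ((CP X (50 * s)).card : ℝ) ≤ 10 ^ 45 * (e + 1) ^ 2 :=
    Pool.Agent.Vpw.pairs_bound2 hA hcol hE40 hSlp
  have hP100 : ((CP X (100 * s)).card : ℝ) ≤ 4 * 10 ^ 45 * (e + 1) ^ 2 :=
    pairs_100 hA hcol hE41
  set g : ℝ := 2 * 10 ^ 12 * (e + 1) / n with hg
  have hg0 : 0 < g := by positivity
  have hng : n * g = 2 * 10 ^ 12 * (e + 1) := by rw [hg, mul_div_cancel₀ _ hnpos.ne']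
  have hg8 : g ≤ 1 / 10 ^ 8 := by
    rw [hg, div_le_iff₀ hnpos]
    linarith
  have hTg : 5 * e / X.card ≤ g / 10 ^ 11 := by
    rw [hg, div_div, mul_comm n, ← div_div]
    apply div_le_div_of_nonneg_right _ hnpos.le
    rw [le_div_iff₀ (by norm_num)]
    linarith
  have hng' : 2 * 10 ^ 12 * (e + 1) ≤ X.card * g := hng.ge
  have hT6 : 5 * e / X.card ≤ 1 / 10 ^ 6 := by
    refine hTg.trans ?_
    rw [div_le_iff₀ (by norm_num)]
    linarith
  -- many points near 1 and near I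
  have hmany : ∀ u : ℂ, ‖u‖ = 1 →
      n / 3000 ≤ ((X.filter fun x => dist x u ≤ 1 / 200).card : ℝ) := by
    intro u hu
    obtain ⟨x, hx, hx1⟩ := density hA hg0 hg8 hTg hng' (u := u) hu
    have h2 := avg hA (σ := 4 / 1000) (by linarith) (by norm_num) (by norm_num) hx
    have h3 : ball X x (4 / 1000) ⊆ X.filter fun x => dist x u ≤ 1 / 200 := by
      intro y hy
      rw [mem_ball] at hy
      rw [Finset.mem_filter]
      refine ⟨hy.1, ?_⟩
      have := dist_triangle y x u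
      linarith [hy.2]
    have h4 : ((ball X x (4 / 1000)).card : ℝ) ≤
        ((X.filter fun x => dist x u ≤ 1 / 200).card : ℝ) := by
      exact_mod_cast Finset.card_le_card h3
    rw [hcardE] at h2
    linarith
  have hNF : n ^ 2 / (9 * 10 ^ 6) ≤ ((NF X).card : ℝ) := by
    rw [NF, Finset.card_product, Nat.cast_mul]
    have a1 := hmany 1 (by simp)
    have a2 := hmany Complex.I (by simp)
    calc n ^ 2 / (9 * 10 ^ 6) = (n / 3000) * (n / 3000) := by ring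
      _ ≤ _ := mul_le_mul a1 a2 (by positivity) (Nat.cast_nonneg _)
  -- the bad ranks
  have hbad : ∑ x ∈ X, ((BadR X x).card : ℝ) ≤ n * (e + 1) + 2 * (CP X (50 * s)).card := by
    calc ∑ x ∈ X, ((BadR X x).card : ℝ) ≤ ∑ x ∈ X, (e + ((coin X x).card : ℝ)) :=
          Finset.sum_le_sum fun x hx => card_BadR h hx
      _ = n * e + ∑ x ∈ X, ((coin X x).card : ℝ) := by
          rw [Finset.sum_add_distrib, Finset.sum_const, nsmul_eq_mul]
      _ ≤ n * (e + 1) + 2 * (CP X (50 * s)).card := by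
          have a3 := sum_coin_pairs hA hT6 hcol hSlp
          linarith
  set K : ℝ := 10 ^ 56 * (e + 1) ^ 2 / n with hK
  have hK0 : 0 < K := by positivity
  have hcount := numQ (n := n) (E := e + 1) (s := s) (K := K)
    (c50 := ((CP X (50 * s)).card : ℝ)) (c100 := ((CP X (100 * s)).card : ℝ))
    (bad := ∑ x ∈ X, ((BadR X x).card : ℝ)) hnpos hE hE4 hE2 hs hK hP50 (Nat.cast_nonneg _)
    hP100 hbad (card_Q2 h) (card_Q3 h) (card_Q4 h hs0) (card_Q5 hs0.le hK0)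
    (card_Q6 hA hT6 hs0.le hs1 hSlp hK0.le)
  obtain ⟨p, hp, h2, h3, h4, h5, h6⟩ := exists_good (hcount.trans_le hNF)
  exact pick_contra hA hg0 hg8 hTg hng' hcol hcirc hs0.le hs1 hSlp hp h2 h3 h4 h5 h6

end Pool.Agent.Vpq
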