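import Pool.Agent.Lib.Vps.Wrap
import Pool.Agent.Lib.Vpt.Main
import Pool.Agent.Lib.Vpq.Main

/-!
# The unconditional result (MP_733c86_co)
-/

set_option autoImplicit false

open Finset Pool.Agent.Vps
open scoped ComplexConjugate

namespace Pool.Agent.Vpq

theorem finalQ :
    ∃ c : ℝ, 0 < c ∧ ∃ N : ℕ, ∀ n : ℕ, N ≤ n →
      ∀ x : Fin n → EuclideanSpace ℝ (Fin 2),
        Function.Injective x →
        (∀ i j k : Fin n, i ≠ j → i ≠ k → j ≠ k →
          ¬ Collinear ℝ ({x i, x j, x k} : Set (EuclideanSpace ℝ (Fin 2)))) →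
        (∀ i j k l : Fin n, i ≠ j → i ≠ k → i ≠ l → j ≠ k → j ≠ l → k ≠ l →
          ¬ EuclideanGeometry.Cospherical
              ({x i, x j, x k, x l} : Set (EuclideanSpace ℝ (Fin 2)))) →
        (∀ i : Fin n, ∀ r : ℝ,
          (Finset.univ.filter (fun j : Fin n => j ≠ i ∧ dist (x i) (x j) = r)).card ≤ 2) →
        (n : ℝ) / 2 + c * (n : ℝ) ^ ((3 : ℝ) / 4) ≤
          (((Finset.univ.filter (fun p : Fin n × Fin n => p.1 ≠ p.2)).image
            (fun p : Fin n × Fin n => dist (x p.1) (x p.2))).card : ℝ) := by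
  refine ⟨1 / 10 ^ 40, by positivity, (10 ^ 200) ^ 3, ?_⟩
  intro n hn x hx hcol hcirc hvalid
  by_contra hlt
  push Not at hlt
  have hn' : ((10 : ℝ) ^ 200) ^ 3 ≤ n := by exact_mod_cast hn
  have hn2 : 2 ≤ n := le_trans (by norm_num) hn
  obtain ⟨f, κ, hκ, hf, h0, h1⟩ := exists_similarity hn2 x hx
  set D := (((Finset.univ.filter (fun p : Fin n × Fin n => p.1 ≠ p.2)).image
            (fun p : Fin n × Fin n => dist (x p.1) (x p.2))).card : ℝ) with hD
  have hinj : Function.Injective (fun i => f (x i)) := fun i j hij => hx (f.injective hij)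
  have hcard : (univ.image fun i => f (x i)).card = n := by
    rw [Finset.card_image_of_injective _ hinj]; simp
  have hsys := sys_of (le_trans (by norm_num) hn2) hx f hκ hf hvalid
  rw [← hD] at hsys
  have hs0 : ∑ z ∈ univ.image fun i => f (x i), z = 0 := by
    rw [Finset.sum_image (fun a _ b _ hab => hinj hab)]; exact h0
  have hs1 : ∑ z ∈ univ.image fun i => f (x i), ‖z‖ ^ 2 =
      ((univ.image fun i => f (x i)).card : ℝ) := by
    rw [Finset.sum_image (fun a _ b _ hab => hinj hab), h1, hcard]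
  have hnC := noCol_of hx f hcol
  have hnS := noCirc_of hx f hκ hf hcirc
  set t : ℝ := (n : ℝ) ^ ((3 : ℝ) / 4) with ht
  have hn0 : (0 : ℝ) ≤ n := by positivity
  have hnpos : (0 : ℝ) < n := lt_of_lt_of_le (by positivity) hn'
  have ht4 : t ^ 4 = (n : ℝ) ^ 3 := by
    rw [ht, ← Real.rpow_natCast ((n : ℝ) ^ ((3 : ℝ) / 4)) 4, ← Real.rpow_mul hn0,
      ← Real.rpow_natCast (n : ℝ) 3]
    norm_num
  have ht0 : 0 ≤ t := Real.rpow_nonneg hn0 _
  have hnn := hsys.nonneg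
  have ht450 : ((10 : ℝ) ^ 150) ^ 3 ≤ t := by
    have h2 : (((10 : ℝ) ^ 150) ^ 3) ^ 4 ≤ t ^ 4 := by
      rw [ht4]
      calc (((10 : ℝ) ^ 150) ^ 3) ^ 4 = (((10 : ℝ) ^ 200) ^ 3) ^ 3 := by norm_num
        _ ≤ (n : ℝ) ^ 3 := pow_le_pow_left₀ (by positivity) hn' 3
    exact (pow_le_pow_iff_left₀ (by positivity) ht0 (by norm_num)).1 h2
  set E : ℝ := 2 * D - (n - 1) + 1 with hEdef
  have hE1 : 1 ≤ E := by linarith
  have h3 : E ≤ 1 / 10 ^ 39 * t := by
    have h4 : 2 * D < n + 2 * (1 / 10 ^ 40 * t) := by linarith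
    have h5 : (2 : ℝ) ≤ 1 / 10 ^ 40 * t := by
      have : (1 : ℝ) / 10 ^ 40 * ((10 : ℝ) ^ 150) ^ 3 ≤ 1 / 10 ^ 40 * t :=
        mul_le_mul_of_nonneg_left ht450 (by positivity)
      refine le_trans ?_ this
      norm_num
    have h6 : (1 : ℝ) / 10 ^ 39 * t = 10 * (1 / 10 ^ 40 * t) := by ring
    linarith
  have hE4 : 10 ^ 120 * E ^ 4 ≤ (n : ℝ) ^ 3 := by
    have h7 : E ^ 4 ≤ (1 / 10 ^ 39 * t) ^ 4 := pow_le_pow_left₀ (by linarith) h3 4
    calc 10 ^ 120 * E ^ 4 ≤ 10 ^ 120 * (1 / 10 ^ 39 * t) ^ 4 :=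
          mul_le_mul_of_nonneg_left h7 (by positivity)
      _ = 1 / 10 ^ 36 * t ^ 4 := by ring
      _ = 1 / 10 ^ 36 * (n : ℝ) ^ 3 := by rw [ht4]
      _ ≤ (n : ℝ) ^ 3 := by
          have : (0 : ℝ) ≤ (n : ℝ) ^ 3 := by positivity
          linarith
  by_cases hcase : (n : ℝ) ≤ E ^ 2
  · exact mainQ hsys hs0 hs1 hnC hnS (by rw [hcard]; exact hE4) (by rw [hcard]; exact hcase)
  · push Not at hcase
    refine Pool.Agent.Vpt.mainT hsys hs0 hs1 hnC hnS ?_
    rw [hcard]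
    have h8 : (10 ^ 200 * E ^ 3) ^ 2 ≤ ((n : ℝ) ^ 2) ^ 2 := by
      have hkey : ∀ a : ℝ, (a * E ^ 3) ^ 2 = a ^ 2 * (E ^ 2) ^ 3 := fun a => by ring
      calc (10 ^ 200 * E ^ 3) ^ 2 = (10 ^ 200) ^ 2 * (E ^ 2) ^ 3 := hkey _
        _ ≤ (10 ^ 200) ^ 2 * (n : ℝ) ^ 3 := by
            apply mul_le_mul_of_nonneg_left _ (by positivity)
            exact pow_le_pow_left₀ (by positivity) hcase.le 3
        _ ≤ n * (n : ℝ) ^ 3 := by
            apply mul_le_mul_of_nonneg_right _ (by positivity)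
            exact le_trans (by norm_num) hn'
        _ = ((n : ℝ) ^ 2) ^ 2 := by ring
    have h9 : 10 ^ 200 * E ^ 3 ≤ (n : ℝ) ^ 2 :=
      (pow_le_pow_iff_left₀ (by positivity) (by positivity) (by norm_num)).1 h8
    exact h9

end Pool.Agent.Vpq
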