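import Pool.Agent.Lib.Vpd.Select

/-!
# Transport of ranks (MP_733c86_co)
-/

set_option autoImplicit false

open Finset Pool.Agent.Vpd

namespace Pool.Agent.Vpq

/-- Ranks are transported by a consistent change. PROOF: `btw_step` for `z0` and `z` gives `f' z0 < f' z`
and `btw B f' z0 z = btw B f z0 z`, which is `b - 1` by `between_card`; `rank_of_cnt` for `f'`. -/
theorem local_rank {α : Type*} [DecidableEq α] {B : Finset α} {f f' : α → ℕ} {z0 z : α}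
    (hz0 : z0 ∈ B) (hz : z ∈ B) {b W : ℕ} (hb : 1 ≤ b) (hbW : b ≤ W) (hzb : f z = f z0 + b)
    (h1 : ∀ u, 1 ≤ u → u ≤ W → OnceF B f (f z0 + u))
    (h2 : ∀ u, 1 ≤ u → u ≤ W → OnceF B f' (f' z0 + u))
    (hs0 : ∀ y ∈ B, y ≠ z0 → (f z0 < f y ∧ f' z0 < f' y) ∨ (f y < f z0 ∧ f' y < f' z0))
    (hs : ∀ y ∈ B, y ≠ z → (f z < f y ∧ f' z < f' y) ∨ (f y < f z ∧ f' y < f' z)) :
    f' z = f' z0 + b := by
  obtain ⟨r, rfl⟩ : ∃ r, b = r + 1 := ⟨b - 1, by omega⟩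
  have h3 := btw_step (f := f) (f' := f') hz0 hz hs0 hs (by omega)
  have h4 := between_card h1 r (by omega)
  rw [← hzb] at h4
  refine rank_of_cnt h2 h3.1 hbW ?_
  have h5 := h3.2
  unfold Vpd.btw at h5
  rw [h5, h4]

end Pool.Agent.Vpq
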