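import Pool.Agent.Lib.Vpd.GoodRank
import Pool.Agent.Lib.Vps.BlockSum

/-!
# Good ranks seen from the far side (MP_733c86_co)
-/

set_option autoImplicit false

open Finset Pool.Agent.Vps Pool.Agent.Vpd
open scoped ComplexConjugate

namespace Pool.Agent.Vpq

namespace MirrorAux

/-- The reflection exchanging `1` and `I`. -/
noncomputable def σ (w : ℂ) : ℂ := Complex.I * conj w

theorem σσ (w : ℂ) : σ (σ w) = w := by
  simp only [σ, map_mul, Complex.conj_I, Complex.conj_conj]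
  rw [← mul_assoc, mul_neg, Complex.I_mul_I, neg_neg, one_mul]

theorem σ_one : σ 1 = Complex.I := by simp [σ]

theorem σ_I : σ Complex.I = 1 := by
  rw [← σ_one, σσ]

theorem σ_inj {a b : ℂ} (h : σ a = σ b) : a = b := by
  rw [← σσ a, h, σσ]

theorem dist_σ (a b : ℂ) : dist (σ a) (σ b) = dist a b := by
  rw [Complex.dist_eq, Complex.dist_eq, σ, σ, ← mul_sub, norm_mul, Complex.norm_I, one_mul,
    ← map_sub, Complex.norm_conj]

theorem norm_σ (a : ℂ) : ‖σ a‖ = ‖a‖ := by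
  rw [σ, norm_mul, Complex.norm_I, one_mul, Complex.norm_conj]

theorem im_σ (a z : ℂ) : (σ a * conj (σ z)).im = - (a * conj z).im := by
  simp only [σ, Complex.mul_im, Complex.mul_re, Complex.conj_re, Complex.conj_im, Complex.I_re,
    Complex.I_im]
  ring

/-- The reflected system. -/
noncomputable def sX (X : Finset ℂ) : Finset ℂ := X.image σ

theorem mem_sX {X : Finset ℂ} {w : ℂ} : w ∈ sX X ↔ σ w ∈ X := by
  unfold sX
  constructor
  · intro h
    obtain ⟨v, hv, rfl⟩ := Finset.mem_image.1 h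
    rwa [σσ]
  · intro h
    exact Finset.mem_image.2 ⟨σ w, h, σσ w⟩

theorem σ_mem_sX {X : Finset ℂ} {w : ℂ} (h : w ∈ X) : σ w ∈ sX X := by
  rw [mem_sX, σσ]
  exact h

theorem card_sX (X : Finset ℂ) : (sX X).card = X.card :=
  Finset.card_image_of_injective _ fun _ _ h => σ_inj h

theorem Dset_sX (X : Finset ℂ) : Dset (sX X) = Dset X := by
  ext d
  rw [mem_Dset, mem_Dset]
  constructor
  · rintro ⟨x, hx, y, hy, hxy, h⟩
    exact ⟨σ x, mem_sX.1 hx, σ y, mem_sX.1 hy, fun h' => hxy (σ_inj h'), by rw [dist_σ, h]⟩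
  · rintro ⟨x, hx, y, hy, hxy, h⟩
    exact ⟨σ x, σ_mem_sX hx, σ y, σ_mem_sX hy, fun h' => hxy (σ_inj h'), by rw [dist_σ, h]⟩

theorem R_sX (X : Finset ℂ) (a b : ℂ) : R (sX X) (σ a) (σ b) = R X a b := by
  unfold R
  rw [Dset_sX, dist_σ]

theorem card_filter_sX (X : Finset ℂ) (z : ℂ) (d : ℝ) :
    (X.filter fun u => dist z u = d).card ≤ ((sX X).filter fun u => dist (σ z) u = d).card := by
  refine Finset.card_le_card_of_injOn σ ?_ (fun a _ b _ hab => σ_inj hab)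
  intro y hy
  simp only [Finset.coe_filter, Set.mem_ofPred_eq] at hy ⊢
  exact ⟨σ_mem_sX hy.1, by rw [dist_σ, hy.2]⟩

theorem ann_sX {X : Finset ℂ} {e T : ℝ} (h : Ann X e T) : Ann (sX X) e T where
  valid := by
    intro x hx r
    have h1 := h.valid (σ x) (mem_sX.1 hx) r
    refine le_trans ?_ h1
    refine Finset.card_le_card_of_injOn σ ?_ (fun a _ b _ hab => σ_inj hab)
    intro y hy
    simp only [Finset.coe_filter, Set.mem_ofPred_eq] at hy ⊢
    exact ⟨mem_sX.1 hy.1, fun h' => hy.2.1 (σ_inj h'), by rw [dist_σ, hy.2.2]⟩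
  defect := by rw [Dset_sX, card_sX]; exact h.defect
  nonneg := h.nonneg
  sum_zero := by
    unfold sX
    rw [Finset.sum_image (fun a _ b _ hab => σ_inj hab)]
    unfold σ
    rw [← Finset.mul_sum, ← map_sum, h.sum_zero, map_zero, mul_zero]
  ann := by
    intro x hx
    have := h.ann (σ x) (mem_sX.1 hx)
    rwa [norm_σ] at this
  nonempty := by
    obtain ⟨x, hx⟩ := h.nonempty
    exact ⟨σ x, σ_mem_sX hx⟩

theorem im_ne_zero {T : ℝ} (hT : T ≤ 1 / 10 ^ 6) {x y : ℂ} (hx : |‖x‖ ^ 2 - 1| ≤ T)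
    (hy : |‖y‖ ^ 2 - 1| ≤ T) (h1 : 3 / 10 ≤ dist x y) (h2 : dist x y ≤ 19 / 10) :
    (y * conj x).im ≠ 0 := by
  obtain ⟨e1, e2⟩ := BlockSumAux.frame_eqs (x := x) (y := y)
  rw [abs_le] at hx hy
  have hd1 : (3 / 10) ^ 2 ≤ dist x y ^ 2 := pow_le_pow_left₀ (by norm_num) h1 2
  have hd2 : dist x y ^ 2 ≤ (19 / 10) ^ 2 := pow_le_pow_left₀ dist_nonneg h2 2
  have r1 : -(806 / 1000) ≤ (y * conj x).re := by linarith
  have r2 : (y * conj x).re ≤ 956 / 1000 := by linarith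
  have r3 : (y * conj x).re ^ 2 ≤ 914 / 1000 := by nlinarith
  have r4 : 999 / 1000 ≤ ‖y‖ ^ 2 * ‖x‖ ^ 2 := by nlinarith
  intro h0
  rw [h0] at e2
  have e3 : (0 : ℝ) ^ 2 = 0 := by norm_num
  rw [e3] at e2
  linarith

theorem coin_sX {X : Finset ℂ} {e T : ℝ} (h : Ann X e T) (hT : T ≤ 1 / 10 ^ 6) {z : ℂ}
    (hz : z ∈ X) : coin (sX X) (σ z) ⊆ coin X z := by
  intro d hd
  unfold coin at hd ⊢
  rw [Finset.mem_filter] at hd ⊢
  obtain ⟨hdS, h1, h2, y, hy, y', hy', hne, e1, e2, h3⟩ := hd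
  rw [Dset_sX] at hdS
  have hz' : σ (σ z) = z := σσ z
  have f1 : dist z (σ y) = d := by rw [← dist_σ, σσ, e1]
  have f2 : dist z (σ y') = d := by rw [← dist_σ, σσ, e2]
  refine ⟨hdS, h1, h2, σ y, mem_sX.1 hy, σ y', mem_sX.1 hy', fun h' => hne (σ_inj h'), f1, f2, ?_⟩
  have g1 := im_ne_zero hT (h.ann z hz) (h.ann (σ y) (mem_sX.1 hy)) (by rw [f1]; exact h1)
    (by rw [f1]; exact h2)
  have g2 := im_ne_zero hT (h.ann z hz) (h.ann (σ y') (mem_sX.1 hy')) (by rw [f2]; exact h1)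
    (by rw [f2]; exact h2)
  have k1 := im_σ (σ y) z
  have k2 := im_σ (σ y') z
  rw [σσ] at k1 k2
  rw [k1, k2] at h3
  constructor
  · intro h4
    by_contra h5
    have h6 : (σ y' * conj z).im < 0 := lt_of_le_of_ne (not_lt.1 h5) g2
    have := h3.2 (by linarith)
    linarith
  · intro h4
    by_contra h5
    have h6 : (σ y * conj z).im < 0 := lt_of_le_of_ne (not_lt.1 h5) g1
    have := h3.1 (by linarith)
    linarith

theorem BadR_sX {X : Finset ℂ} {e T : ℝ} (h : Ann X e T) (hT : T ≤ 1 / 10 ^ 6) {z : ℂ}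
    (hz : z ∈ X) : BadR (sX X) (σ z) ⊆ BadR X z := by
  unfold BadR
  rw [Dset_sX]
  refine Finset.image_subset_image ?_
  unfold BadD
  refine Finset.union_subset_union ?_ (coin_sX h hT hz)
  rw [Dset_sX]
  intro d hd
  rw [Finset.mem_filter] at hd ⊢
  exact ⟨hd.1, (card_filter_sX X z d).trans hd.2⟩

end MirrorAux

open MirrorAux

/-- `Vpd.good_rank` with the roles of `1` and `I` exchanged. PROOF. Let `σ w = I * conj w`, an
involutive isometry, `σ 1 = I`, `σ I = 1`, and `Y = X.image σ`. `Ann Y e T` (as `Vps.sys_cX` and its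
companions in Conj.lean: `valid`, `Dset Y = Dset X`, `∑ σ x = I * conj (∑ x) = 0`, `‖σ x‖ = ‖x‖`),
`Y.card = X.card`, `R Y (σ a) (σ b) = R X a b`, `BadR Y (σ z) = BadR X z`: the filter
`(Y.filter fun u => dist (σ z) u = d).card` is that of `X`, and `coin Y (σ z) = coin X z` because
`(σ y * conj (σ z)).im = - (y * conj z).im` and for `3 / 10 ≤ dist z y ≤ 19 / 10` this number is not
zero (`im_lower` for `y` or its `BlockSum` companion: the square of the imaginary part is at least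
`68 / 1000`), so `0 < -t ↔ ¬ 0 < t` on both sides of the equivalence in `coin`. Apply `good_rank` to
`Y`, `σ z` (near `1`), `σ x` (near `I`) and take `σ` of the point found. -/
theorem good_rank' {X : Finset ℂ} {e T : ℝ} (h : Ann X e T) {g : ℝ} (hg0 : 0 < g)
    (hg : g ≤ 1 / 10 ^ 8) (hT : T ≤ g / 10 ^ 11) (hn : 2 * 10 ^ 12 * (e + 1) ≤ X.card * g)
    {W : ℕ} (hW : (W : ℝ) * g ≤ 1 / 10 ^ 5) {z : ℂ} (hz : z ∈ X)
    (hz1 : dist z Complex.I ≤ 1 / 20) {x : ℂ} (hx : x ∈ X) (hx1 : dist x 1 ≤ 1 / 100) {u : ℕ}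
    (hu : u ≤ W) (hb : R X z x + u ∉ BadR X z) :
    ∃ y ∈ X, dist y 1 ≤ 1 / 50 ∧ R X z y = R X z x + u ∧
      ∀ y' ∈ X, dist y' 1 ≤ 1 / 50 → R X z y' = R X z x + u → y' = y := by
  have hT6 : T ≤ 1 / 10 ^ 6 := by
    refine hT.trans ?_
    rw [div_le_iff₀ (by norm_num)]
    refine hg.trans ?_
    norm_num
  obtain ⟨y, hy, h1, h2, h3⟩ := good_rank (ann_sX h) hg0 hg hT (by rw [card_sX]; exact hn) hW
    (x := σ z) (σ_mem_sX hz) (by rw [← σ_I, dist_σ]; exact hz1)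
    (z := σ x) (σ_mem_sX hx) (by rw [← σ_one, dist_σ]; exact hx1) hu
    (fun hmem => hb (by
      rw [R_sX] at hmem
      exact BadR_sX h hT6 hz hmem))
  have hR : ∀ w, R (sX X) (σ z) w = R X z (σ w) := by
    intro w
    have := R_sX X z (σ w)
    rwa [σσ] at this
  rw [R_sX, hR] at h2
  refine ⟨σ y, mem_sX.1 hy, by rw [← σ_I, dist_σ]; exact h1, h2, ?_⟩
  intro y' hy' h4 h5
  have h6 := h3 (σ y') (σ_mem_sX hy') (by rw [← σ_one, dist_σ]; exact h4)
    (by rw [R_sX, R_sX]; exact h5)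
  rw [← h6, σσ]

end Pool.Agent.Vpq
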