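import Pool.Agent.Lib.Vpt.Slp
import Pool.Agent.Lib.Vpd.Geo

/-!
# Two near points at almost the same distance of a far point are close (MP_733c86_co)
-/

set_option autoImplicit false

open Finset Pool.Agent.Vps Pool.Agent.Vpd Pool.Agent.Vpt
open scoped ComplexConjugate

namespace Pool.Agent.Vpq

namespace NearAux

theorem sq_dist (x z : ℂ) : dist x z ^ 2 = (x.re - z.re) ^ 2 + (x.im - z.im) ^ 2 := by
  rw [Complex.dist_eq, Complex.sq_norm, Complex.normSq_apply, Complex.sub_re, Complex.sub_im]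
  ring

theorem sq_norm' (x : ℂ) : ‖x‖ ^ 2 = x.re ^ 2 + x.im ^ 2 := by
  rw [Complex.sq_norm, Complex.normSq_apply]
  ring

theorem abs_re_sub_le (x z : ℂ) : |x.re - z.re| ≤ dist x z := by
  rw [Complex.dist_eq, ← Complex.sub_re]
  exact Complex.abs_re_le_norm _

theorem abs_im_sub_le (x z : ℂ) : |x.im - z.im| ≤ dist x z := by
  rw [Complex.dist_eq, ← Complex.sub_im]
  exact Complex.abs_im_le_norm _

theorem dist_le_abs (x z : ℂ) : dist x z ≤ |z.re - x.re| + |z.im - x.im| := by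
  rw [dist_comm, Complex.dist_eq, ← Complex.sub_re, ← Complex.sub_im]
  exact Complex.norm_le_abs_re_add_abs_im _

/-- `|p A - q B| ≤ K` with `A`, `B` near `2`. -/
theorem im_bound {p q A B K : ℝ} (hA : |A - 2| ≤ 2 / 25) (hB : |B - 2| ≤ 2 / 25)
    (h : |p * A - q * B| ≤ K) : |q| ≤ |p| + K / 2 + 1 / 25 * (|p| + |q|) := by
  have h1 : |p * (A - 2)| ≤ |p| * (2 / 25) := by
    rw [abs_mul]
    exact mul_le_mul_of_nonneg_left hA (abs_nonneg _)
  have h2 : |q * (B - 2)| ≤ |q| * (2 / 25) := by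
    rw [abs_mul]
    exact mul_le_mul_of_nonneg_left hB (abs_nonneg _)
  have h3 : 2 * q = 2 * p - (p * A - q * B) + p * (A - 2) - q * (B - 2) := by ring
  have h4 : |2 * q| = 2 * |q| := by rw [abs_mul, abs_of_pos (by norm_num : (0 : ℝ) < 2)]
  have h5 : |2 * p| = 2 * |p| := by rw [abs_mul, abs_of_pos (by norm_num : (0 : ℝ) < 2)]
  have h6 : |2 * q| ≤ |2 * p| + |p * A - q * B| + |p * (A - 2)| + |q * (B - 2)| := by
    rw [h3]
    refine (abs_sub _ _).trans ?_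
    gcongr
    refine (abs_add_le _ _).trans ?_
    gcongr
    exact abs_sub _ _
  linarith

/-- `|p A + q B| ≤ K` with `A` near `2` and `B` near `0`. -/
theorem re_bound {p q A B K : ℝ} (hA : 49 / 25 ≤ A) (hB : |B| ≤ 1 / 25)
    (h : |p * A + q * B| ≤ K) : 49 / 25 * |p| ≤ K + 1 / 25 * |q| := by
  have h1 : |q * B| ≤ |q| * (1 / 25) := by
    rw [abs_mul]
    exact mul_le_mul_of_nonneg_left hB (abs_nonneg _)
  have h2 : |p * A| ≤ |p * A + q * B| + |q * B| := by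
    have h3 : p * A = (p * A + q * B) - q * B := by ring
    calc |p * A| = |(p * A + q * B) - q * B| := by rw [← h3]
      _ ≤ _ := abs_sub _ _
  have h3 : |p * A| = |p| * A := by rw [abs_mul, abs_of_pos (by linarith : (0 : ℝ) < A)]
  have h4 : 49 / 25 * |p| ≤ |p| * A := by
    rw [mul_comm]
    exact mul_le_mul_of_nonneg_left hA (abs_nonneg _)
  linarith

end NearAux

open NearAux

/-- PROOF. `δ = x' - x`, `L = |δ.re| + |δ.im| ≥ dist x x'`. `dist x' z ^ 2 - dist x z ^ 2 =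
δ.re * (x.re + x'.re - 2 z.re) + δ.im * (x.im + x'.im - 2 z.im)`, the two brackets are within `8 / 100`
of `2` and `-2` and the left side is at most `3 s` (`dist x z + dist x' z ≤ 3`), so
`|δ.im| ≤ |δ.re| + 1.5 s + 0.04 L`. (1) Crude: `‖x'‖ ^ 2 - ‖x‖ ^ 2 = δ.re (x.re + x'.re) +
δ.im (x.im + x'.im)` is at most `2 T`, `x.re + x'.re ≥ 1.96`, `|x.im + x'.im| ≤ 0.04`:
`|δ.re| ≤ 1.03 T + 0.03 L`; so `L ≤ 1 / 100`. (2) `hs` gives `|‖x'‖ - ‖x‖| ≤ L / 9 + s`, so
`|‖x'‖ ^ 2 - ‖x‖ ^ 2| ≤ 2.05 (L / 9 + s)`, `|δ.re| ≤ 0.14 L + 1.1 s`, `|δ.im| ≤ 0.18 L + 2.6 s`,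
`L ≤ 0.32 L + 3.7 s`, `L ≤ 10 s`. -/
theorem near_close {X : Finset ℂ} {T s : ℝ} (hT : T ≤ 1 / 10 ^ 6) (hs0 : 0 ≤ s)
    (hs1 : s ≤ 1 / 10 ^ 6) (hs : Slp X s) {x x' z : ℂ} (hx : x ∈ X) (hx' : x' ∈ X)
    (hxT : |‖x‖ ^ 2 - 1| ≤ T) (hxT' : |‖x'‖ ^ 2 - 1| ≤ T) (h1 : dist x 1 ≤ 1 / 50)
    (h1' : dist x' 1 ≤ 1 / 50) (hz : dist z Complex.I ≤ 1 / 50)
    (hd : |dist x z - dist x' z| ≤ s) : dist x x' ≤ 10 * s := by
  have e1 := (abs_re_sub_le x 1).trans h1
  have e2 := (abs_im_sub_le x 1).trans h1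
  have e3 := (abs_re_sub_le x' 1).trans h1'
  have e4 := (abs_im_sub_le x' 1).trans h1'
  have e5 := (abs_re_sub_le z Complex.I).trans hz
  have e6 := (abs_im_sub_le z Complex.I).trans hz
  simp only [Complex.one_re, Complex.one_im, Complex.I_re, Complex.I_im, sub_zero] at e1 e2 e3 e4 e5 e6
  rw [abs_le] at e1 e2 e3 e4 e5 e6
  have hL := dist_le_abs x x'
  have hp0 := abs_nonneg (x'.re - x.re)
  have hq0 := abs_nonneg (x'.im - x.im)
  -- the distances to `z`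
  have hsum : dist x z + dist x' z ≤ 3 := by
    have h2 : ∀ w : ℂ, dist w 1 ≤ 1 / 50 → dist w z ≤ 3 / 2 := by
      intro w hw
      have h3 : dist (1 : ℂ) Complex.I ≤ 36 / 25 := by
        have h4 : dist (1 : ℂ) Complex.I ^ 2 ≤ (36 / 25) ^ 2 := by
          rw [sq_dist]
          simp only [Complex.one_re, Complex.one_im, Complex.I_re, Complex.I_im]
          norm_num
        exact (pow_le_pow_iff_left₀ dist_nonneg (by norm_num) two_ne_zero).1 h4
      have h4 : dist w z ≤ dist w 1 + dist 1 Complex.I + dist Complex.I z := dist_triangle4 _ _ _ _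
      rw [dist_comm Complex.I z] at h4
      linarith
    have := h2 x h1
    have := h2 x' h1'
    linarith
  have hdz : |(x'.re - x.re) * (x.re + x'.re - 2 * z.re) -
      (x'.im - x.im) * (2 * z.im - x.im - x'.im)| ≤ 3 * s := by
    have h2 : (x'.re - x.re) * (x.re + x'.re - 2 * z.re) -
      (x'.im - x.im) * (2 * z.im - x.im - x'.im) =
        -((dist x z - dist x' z) * (dist x z + dist x' z)) := by
      have h3 : (dist x z - dist x' z) * (dist x z + dist x' z) = dist x z ^ 2 - dist x' z ^ 2 := by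
        ring
      rw [h3, sq_dist, sq_dist]
      ring
    rw [h2, abs_neg, abs_mul, abs_of_nonneg (by positivity : 0 ≤ dist x z + dist x' z)]
    have h4 := mul_le_mul hd hsum (by positivity) hs0
    linarith
  have hq := im_bound (by rw [abs_le]; constructor <;> linarith)
    (by rw [abs_le]; constructor <;> linarith) hdz
  have hn : ‖x'‖ ^ 2 - ‖x‖ ^ 2 =
      (x'.re - x.re) * (x.re + x'.re) + (x'.im - x.im) * (x.im + x'.im) := by
    rw [sq_norm', sq_norm']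
    ring
  have hA : 49 / 25 ≤ x.re + x'.re := by linarith
  have hB : |x.im + x'.im| ≤ 1 / 25 := by
    rw [abs_le]
    constructor <;> linarith
  -- crude bound
  have hp1 : 49 / 25 * |x'.re - x.re| ≤ 2 * T + 1 / 25 * |x'.im - x.im| := by
    refine re_bound hA hB ?_
    rw [← hn]
    rw [abs_le] at hxT hxT' ⊢
    constructor <;> linarith
  have hL1 : |x'.re - x.re| + |x'.im - x.im| ≤ 1 / 100 := by linarith
  have hs2 := hs x hx x' hx' (hL.trans hL1)
  have hnx : ‖x‖ ≤ 51 / 50 := by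
    have h2 : ‖x‖ ≤ dist x 1 + ‖(1 : ℂ)‖ := by
      rw [Complex.dist_eq]
      calc ‖x‖ = ‖(x - 1) + 1‖ := by rw [sub_add_cancel]
        _ ≤ _ := norm_add_le _ _
    rw [norm_one] at h2
    linarith
  have hnx' : ‖x'‖ ≤ 51 / 50 := by
    have h2 : ‖x'‖ ≤ dist x' 1 + ‖(1 : ℂ)‖ := by
      rw [Complex.dist_eq]
      calc ‖x'‖ = ‖(x' - 1) + 1‖ := by rw [sub_add_cancel]
        _ ≤ _ := norm_add_le _ _
    rw [norm_one] at h2
    linarith
  have hp2 : 49 / 25 * |x'.re - x.re| ≤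
      41 / 20 * ((|x'.re - x.re| + |x'.im - x.im|) / 9 + s) + 1 / 25 * |x'.im - x.im| := by
    refine re_bound hA hB ?_
    rw [← hn]
    have h2 : ‖x'‖ ^ 2 - ‖x‖ ^ 2 = -((‖x‖ - ‖x'‖) * (‖x‖ + ‖x'‖)) := by ring
    rw [h2, abs_neg, abs_mul, abs_of_nonneg (by positivity : 0 ≤ ‖x‖ + ‖x'‖)]
    have h3 : |‖x‖ - ‖x'‖| ≤ (|x'.re - x.re| + |x'.im - x.im|) / 9 + s := by linarith
    have h4 := mul_le_mul h3 (by linarith : ‖x‖ + ‖x'‖ ≤ 41 / 20) (by positivity)
      (by positivity)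
    linarith
  refine hL.trans ?_
  linarith

end Pool.Agent.Vpq
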