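import Pool.Agent.Lib.Vpq.Mirror
import Pool.Agent.Lib.Vpq.Local
import Pool.Agent.Lib.Vpq.NearA
import Pool.Agent.Lib.Vpq.Defs

/-!
# The local configuration (MP_733c86_co)
-/

set_option autoImplicit false

open Finset Pool.Agent.Vps Pool.Agent.Vpd Pool.Agent.Vpt
open scoped ComplexConjugate

namespace Pool.Agent.Vpq

namespace PickAux

theorem mem_filter_any {α : Type*} {t : Finset α} {q : α → Prop} {inst : DecidablePred q} {a : α} :
    a ∈ @Finset.filter α q inst t ↔ a ∈ t ∧ q a := Finset.mem_filter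

/-- A far distance has a large rank. -/
theorem rank_gap {X : Finset ℂ} {d0 s : ℝ} {x z : ℂ} (hs0 : 0 ≤ s)
    (h3 : 3 ≤ ((Dset X).filter fun d => d0 < d ∧ d ≤ d0 + s).card) (hm : dist x z ∈ Dset X)
    (hd : d0 + s < dist x z) : ((Dset X).filter fun d => d ≤ d0).card + 4 ≤ R X x z := by
  classical
  have hsub : insert (dist x z) (((Dset X).filter fun d => d ≤ d0) ∪
      ((Dset X).filter fun d => d0 < d ∧ d ≤ d0 + s)) ⊆ (Dset X).filter fun d => d ≤ dist x z := by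
    intro d hdm
    rw [Finset.mem_insert, Finset.mem_union, Finset.mem_filter, Finset.mem_filter] at hdm
    rw [Finset.mem_filter]
    rcases hdm with h1 | ⟨h1, h2⟩ | ⟨h1, h2, h4⟩
    · rw [h1]
      exact ⟨hm, le_rfl⟩
    · exact ⟨h1, by linarith⟩
    · exact ⟨h1, by linarith⟩
  have hnot : dist x z ∉ (((Dset X).filter fun d => d ≤ d0) ∪
      ((Dset X).filter fun d => d0 < d ∧ d ≤ d0 + s)) := by
    rw [Finset.mem_union, Finset.mem_filter, Finset.mem_filter]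
    rintro (⟨-, h1⟩ | ⟨-, -, h1⟩)
    · linarith
    · linarith
  have hdisj : Disjoint ((Dset X).filter fun d => d ≤ d0)
      ((Dset X).filter fun d => d0 < d ∧ d ≤ d0 + s) := by
    rw [Finset.disjoint_left]
    intro d h1 h2
    rw [Finset.mem_filter] at h1 h2
    linarith [h1.2, h2.2.1]
  have hcard := Finset.card_le_card hsub
  rw [Finset.card_insert_of_notMem hnot, Finset.card_union_of_disjoint hdisj] at hcard
  unfold R
  omega

/-- No inversion: the ranks have the same order. -/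
theorem order_of_not_inv {X : Finset ℂ} {x x' z y : ℂ} (h : ¬ Vpd.Inv x x' z y)
    (h1 : dist x y ∈ Dset X) (h2 : dist x' y ∈ Dset X) (h3 : dist x z ∈ Dset X)
    (h4 : dist x' z ∈ Dset X) :
    (R X x z < R X x y ∧ R X x' z < R X x' y) ∨ (R X x y < R X x z ∧ R X x' y < R X x' z) := by
  unfold Vpd.Inv at h
  rw [← not_or, not_not] at h
  rcases h with ⟨a1, a2⟩ | ⟨a1, a2⟩
  · exact Or.inl ⟨R_lt a1 h1, R_lt a2 h2⟩
  · exact Or.inr ⟨R_lt a1 h3, R_lt a2 h4⟩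

end PickAux

/-- PROOF. Let `p = (x0, z0)`, `r0 = R X x0 z0 = R X z0 x0`, `d0 = dist x0 z0`.
(1) For `a ≤ 3`: `r0 + a ∉ BadR X z0` (`h2`), `good_rank'` gives `x_a ∈ X`, `dist (x_a) 1 ≤ 1 / 50`,
`R X z0 x_a = r0 + a`; take `x_0 = x0` for `a = 0`. (2) `h4`: at least three elements of `Dset X` in
`(d0, d0 + s]`; if `dist x_a z0 > d0 + s` then `R X x_a z0 ≥ r0 + 4` (the `r0` elements `≤ d0`, these
three and `dist x_a z0`); and `dist x_a z0 ≥ d0`. So `|dist x_a z0 - dist x0 z0| ≤ s` and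
`near_close`: `dist x0 x_a ≤ 10 s`, `dist x_a 1 ≤ 1 / 100`. (3) `h3` with `x = x_a`: `good_rank` at
`x_a`, `z0`: for `b ≤ 6` exactly one far point (within `1 / 50` of `I`) has rank `r0 + a + b` for `x_a`
(`OnceF` for `B = X.filter fun z => dist z I ≤ 1 / 50`). Let `z_b` be the one of `x0` (`z_0 = z0`).
(4) `h5` (`¬ K < card ball`) and `h6`: no `y ∈ B`, `y ≠ z_b`, with `Inv x0 x_a z_b y`, so the orders at
`x0` and `x_a` agree around `z_b` (`R_lt`, as in `Vpd.rows_contra`); `local_rank`: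
`R X x_a z_b = r0 + a + b` for `a ≤ 3`, `b ≤ 6`. (5) `chain_contra` with `p a = x_{a+1}`, `p' a = x_a`
(`a = 0, 1, 2`), `z = z_b` (`dist_eq_of_R_eq`); the `x_a` (and the `z_b`) are different because their
ranks are; the end is as in `Vpd.rows_contra`. -/
theorem pick_contra {X : Finset ℂ} {e T : ℝ} (hA : Ann X e T) {g : ℝ} (hg0 : 0 < g)
    (hg8 : g ≤ 1 / 10 ^ 8) (hTg : T ≤ g / 10 ^ 11) (hng' : 2 * 10 ^ 12 * (e + 1) ≤ X.card * g)
    (hcol : NoCol X) (hcirc : NoCirc X) {s K : ℝ} (hs0 : 0 ≤ s) (hs1 : s ≤ 1 / 10 ^ 6)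
    (hs : Slp X s) {p : ℂ × ℂ} (hp : p ∈ NF X) (h2 : p ∉ Q2 X) (h3 : p ∉ Q3 X) (h4 : p ∉ Q4 X s)
    (h5 : p ∉ Q5 X s K) (h6 : p ∉ Q6 X s K) : False := by
  classical
  obtain ⟨x0, z0⟩ := p
  have hpN : (x0 ∈ X ∧ dist x0 1 ≤ 1 / 200) ∧ (z0 ∈ X ∧ dist z0 Complex.I ≤ 1 / 200) := by
    have h := hp
    rw [NF, Finset.mem_product, Finset.mem_filter, Finset.mem_filter] at h
    exact h
  obtain ⟨⟨hx0, hx01⟩, hz0, hz01⟩ := hpN
  -- the hypotheses
  have H2 : ∀ a ≤ 3, R X x0 z0 + a ∉ BadR X z0 := by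
    intro a ha hb
    apply h2
    unfold Q2
    exact PickAux.mem_filter_any.2 ⟨hp, a, ha, hb⟩
  have H3 : ∀ x ∈ X, dist x 1 ≤ 1 / 20 → ∀ a ≤ 3, R X x z0 = R X x0 z0 + a →
      ∀ b ≤ 6, R X x z0 + b ∉ BadR X x := by
    intro x hx hx1 a ha he b hb hbad
    apply h3
    unfold Q3
    exact PickAux.mem_filter_any.2 ⟨hp, x, hx, hx1, a, ha, he, b, hb, hbad⟩
  have H4 : 3 ≤ ((Dset X).filter fun d => dist x0 z0 < d ∧ d ≤ dist x0 z0 + s).card := by
    by_contra hc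
    apply h4
    unfold Q4
    exact PickAux.mem_filter_any.2 ⟨hp, not_le.1 hc⟩
  have H5 : ((ball X x0 (100 * s)).card : ℝ) ≤ K := by
    by_contra hc
    apply h5
    unfold Q5
    exact PickAux.mem_filter_any.2 ⟨hp, not_le.1 hc⟩
  have H6 : ∀ z ∈ X, dist z Complex.I ≤ 1 / 50 → (∃ b ≤ 6, R X x0 z = R X x0 z0 + b) →
      ∀ x' ∈ X, dist x' x0 ≤ 10 * s → ∀ y ∈ X, dist y Complex.I ≤ 1 / 50 → y ≠ z →
        ¬ Vpd.Inv x0 x' z y := by
    intro z hz hz1 hb x' hx' hx'1 y hy hy1 hyz hinv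
    apply h6
    unfold Q6
    exact PickAux.mem_filter_any.2 ⟨hp, H5, z, hz, hz1, hb, x', hx', hx'1, y, hy, hy1, hyz, hinv⟩
  -- numerics
  have hT6 : T ≤ 1 / 10 ^ 6 := by
    have h1 : g / 10 ^ 11 ≤ g := div_le_self hg0.le (by norm_num)
    have h7 : (1 : ℝ) / 10 ^ 8 ≤ 1 / 10 ^ 6 := by norm_num
    linarith
  have hW6 : ((6 : ℕ) : ℝ) * g ≤ 1 / 10 ^ 5 := by
    push_cast
    norm_num at hg8 ⊢
    linarith
  have hx05 : dist x0 1 ≤ 1 / 50 := hx01.trans (by norm_num)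
  have hx02 : dist x0 1 ≤ 1 / 20 := hx01.trans (by norm_num)
  have hz05 : dist z0 Complex.I ≤ 1 / 50 := hz01.trans (by norm_num)
  have hDx : ∀ x ∈ X, dist x 1 ≤ 1 / 50 → ∀ z ∈ X, dist z Complex.I ≤ 1 / 50 →
      dist x z ∈ Dset X := by
    intro x hx hx1 z hz hz1
    exact dist_mem_Dset hx hz (ne_of_near (hx1.trans (by norm_num)) hz1)
  -- (1) the near points
  have hxa : ∀ a : ℕ, ∃ x : ℂ, a ≤ 3 → x ∈ X ∧ dist x 1 ≤ 1 / 50 ∧ R X x z0 = R X x0 z0 + a := by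
    intro a
    by_cases ha : a ≤ 3
    · obtain ⟨y, hy, hy1, hy2, -⟩ := good_rank' hA hg0 hg8 hTg hng' (W := 6) hW6 hz0
        (hz01.trans (by norm_num)) hx0 (hx01.trans (by norm_num)) (u := a) (by omega) (by
          rw [Vpq.R_comm z0 x0]
          exact H2 a ha)
      refine ⟨y, fun _ => ⟨hy, hy1, ?_⟩⟩
      rw [Vpq.R_comm y z0, hy2, Vpq.R_comm z0 x0]
    · exact ⟨x0, fun h => absurd h ha⟩
  choose xx hxx using hxa
  -- (2) they are close to `x0`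
  have hclose : ∀ a ≤ 3, dist (xx a) x0 ≤ 10 * s := by
    intro a ha
    obtain ⟨hy, hy1, hy2⟩ := hxx a ha
    have hge : dist x0 z0 ≤ dist (xx a) z0 := by
      by_contra hc
      have := R_lt (not_le.1 hc) (hDx x0 hx0 hx05 z0 hz0 hz05)
      omega
    have hle : dist (xx a) z0 ≤ dist x0 z0 + s := by
      by_contra hc
      have h7 := PickAux.rank_gap hs0 H4 (hDx _ hy hy1 z0 hz0 hz05) (not_le.1 hc)
      have h8 : ((Dset X).filter fun d => d ≤ dist x0 z0).card = R X x0 z0 := rfl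
      omega
    rw [dist_comm]
    refine near_close hT6 hs0 hs1 hs hx0 hy (hA.ann _ hx0) (hA.ann _ hy) hx05 hy1 hz05 ?_
    rw [abs_le]
    constructor <;> linarith
  -- (3) the ranks are seen once
  set B : Finset ℂ := X.filter fun z => dist z Complex.I ≤ 1 / 50 with hB
  have hmemB : ∀ z ∈ B, z ∈ X ∧ dist z Complex.I ≤ 1 / 50 := fun z hz => Finset.mem_filter.1 hz
  have honce : ∀ x ∈ X, dist x 1 ≤ 1 / 50 → ∀ a ≤ 3, R X x z0 = R X x0 z0 + a →
      ∀ b ≤ 6, OnceF B (fun z => R X x z) (R X x z0 + b) := by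
    intro x hx hx1 a ha he b hb
    obtain ⟨y, hy, hy1, hy2, hy3⟩ := good_rank hA hg0 hg8 hTg hng' (W := 6) hW6 hx
      (hx1.trans (by norm_num)) hz0 (hz01.trans (by norm_num)) (u := b) hb
      (H3 x hx (hx1.trans (by norm_num)) a ha he b hb)
    exact ⟨y, Finset.mem_filter.2 ⟨hy, hy1⟩, hy2,
      fun y' hy' he' => hy3 y' (hmemB y' hy').1 (hmemB y' hy').2 he'⟩
  have hz0B : z0 ∈ B := Finset.mem_filter.2 ⟨hz0, hz05⟩
  have hzb : ∀ b : ℕ, ∃ z : ℂ, b ≤ 6 → z ∈ B ∧ R X x0 z = R X x0 z0 + b ∧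
      ∀ y' ∈ B, R X x0 y' = R X x0 z0 + b → y' = z := by
    intro b
    by_cases hb : b ≤ 6
    · obtain ⟨y, hy, hy1, hy2⟩ := honce x0 hx0 hx05 0 (by omega) rfl b hb
      exact ⟨y, fun _ => ⟨hy, hy1, hy2⟩⟩
    · exact ⟨z0, fun h => absurd h hb⟩
  choose zz hzz using hzb
  have hzz0 : zz 0 = z0 := ((hzz 0 (by omega)).2.2 z0 hz0B rfl).symm
  -- (4) the orders agree
  have horder : ∀ a ≤ 3, ∀ b ≤ 6, ∀ y ∈ B, y ≠ zz b →
      (R X x0 (zz b) < R X x0 y ∧ R X (xx a) (zz b) < R X (xx a) y) ∨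
        (R X x0 y < R X x0 (zz b) ∧ R X (xx a) y < R X (xx a) (zz b)) := by
    intro a ha b hb y hy hyz
    obtain ⟨hxa, hxa1, -⟩ := hxx a ha
    obtain ⟨hzB, hzr, -⟩ := hzz b hb
    obtain ⟨hzX, hzX1⟩ := hmemB _ hzB
    obtain ⟨hyX, hyX1⟩ := hmemB _ hy
    exact PickAux.order_of_not_inv
      (H6 (zz b) hzX hzX1 ⟨b, hb, hzr⟩ (xx a) hxa (hclose a ha) y hyX hyX1 hyz)
      (hDx x0 hx0 hx05 y hyX hyX1) (hDx _ hxa hxa1 y hyX hyX1)
      (hDx x0 hx0 hx05 _ hzX hzX1) (hDx _ hxa hxa1 _ hzX hzX1)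
  have hrank : ∀ a ≤ 3, ∀ b ≤ 6, R X (xx a) (zz b) = R X x0 z0 + a + b := by
    intro a ha b hb
    obtain ⟨hxa, hxa1, hxa2⟩ := hxx a ha
    rcases Nat.eq_zero_or_pos b with h0 | hpos
    · subst h0
      rw [hzz0, hxa2]
      rfl
    · have h7 := local_rank (B := B) (f := fun z => R X x0 z) (f' := fun z => R X (xx a) z)
        (z0 := z0) (z := zz b) hz0B (hzz b hb).1 (b := b) (W := 6) hpos hb (hzz b hb).2.1
        (fun u _ hu => honce x0 hx0 hx05 0 (by omega) rfl u hu)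
        (fun u _ hu => honce (xx a) hxa hxa1 a ha hxa2 u hu)
        (fun y hy hyz => by
          have h8 := horder a ha 0 (by omega) y hy (by rw [hzz0]; exact hyz)
          rw [hzz0] at h8
          exact h8)
        (fun y hy hyz => horder a ha b hb y hy hyz)
      have h8 : R X (xx a) (zz b) = R X (xx a) z0 + b := h7
      rw [h8, hxa2]
  -- (5) the chain
  have hxX : ∀ a ≤ 3, xx a ∈ X := fun a ha => (hxx a ha).1
  have hzX : ∀ b ≤ 6, zz b ∈ X := fun b hb => (hmemB _ (hzz b hb).1).1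
  have hxne : ∀ a ≤ 3, ∀ a' ≤ 3, a ≠ a' → xx a ≠ xx a' := by
    intro a ha a' ha' hne he
    have h7 := (hxx a ha).2.2
    have h8 := (hxx a' ha').2.2
    rw [he] at h7
    omega
  have hzne : ∀ i ≤ 6, ∀ j ≤ 6, i ≠ j → zz i ≠ zz j := by
    intro i hi j hj hne he
    have h7 := (hzz i hi).2.1
    have h8 := (hzz j hj).2.1
    rw [he] at h7
    omega
  refine chain_contra (p := fun a : Fin 3 => xx ((a : ℕ) + 1)) (p' := fun a : Fin 3 => xx (a : ℕ))
    (z := zz) ?_ ?_ ?_ ?_ ?_ ?_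
  · exact hcol _ (hxX 0 (by omega)) _ (hxX 1 (by omega)) _ (hxX 2 (by omega))
      (hxne 0 (by omega) 1 (by omega) (by omega)) (hxne 0 (by omega) 2 (by omega) (by omega))
      (hxne 1 (by omega) 2 (by omega) (by omega))
  · intro i hi j hj l hl hij hjl
    exact hcol _ (hzX i hi) _ (hzX j hj) _ (hzX l hl) (hzne i hi j hj (by omega))
      (hzne i hi l hl (by omega)) (hzne j hj l hl (by omega))
  · exact hzne 0 (by omega) 3 (by omega) (by omega)
  · exact hzne 0 (by omega) 4 (by omega) (by omega)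
  · exact hcirc _ (hzX 0 (by omega)) _ (hzX 1 (by omega)) _ (hzX 2 (by omega)) _
      (hzX 3 (by omega)) (hzne 0 (by omega) 1 (by omega) (by omega))
      (hzne 0 (by omega) 2 (by omega) (by omega)) (hzne 0 (by omega) 3 (by omega) (by omega))
      (hzne 1 (by omega) 2 (by omega) (by omega)) (hzne 1 (by omega) 3 (by omega) (by omega))
      (hzne 2 (by omega) 3 (by omega) (by omega))
  · intro a t ht
    have ha : (a : ℕ) < 3 := a.isLt
    have h7 := hrank ((a : ℕ) + 1) (by omega) t (by omega)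
    have h8 := hrank (a : ℕ) (by omega) (t + 1) (by omega)
    obtain ⟨hz1, hz2⟩ := hmemB _ (hzz t (by omega)).1
    obtain ⟨hz3, hz4⟩ := hmemB _ (hzz (t + 1) (by omega)).1
    obtain ⟨hx1, hx2, -⟩ := hxx ((a : ℕ) + 1) (by omega)
    obtain ⟨hx3, hx4, -⟩ := hxx (a : ℕ) (by omega)
    exact dist_eq_of_R_eq (hDx _ hx1 hx2 _ hz1 hz2) (hDx _ hx3 hx4 _ hz3 hz4) (by omega)

end Pool.Agent.Vpq
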